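import Mathlib

set_option autoImplicit false

/-!
# Turing and many-one reducibility on Cantor space, Martin's conjecture and its many-one analogue

Everything is relative to a class `𝓕` of functions from Cantor space to itself.
-/

namespace Pool.Agent.MCM

open Nat.Partrec (Code)

/-- Cantor space `2^ω`. -/
abbrev Cantor := ℕ → Bool

/-- The initial segment `x ↾ k`. -/
def pre (x : Cantor) (k : ℕ) : List Bool := (List.range k).map x

/-- The `e`-th set computably enumerable in `x`: `n ∈ W e x` iff the `e`-th (ordinary) partial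
computable function halts on the (code of the) pair `(x ↾ k, n)` for some `k`. -/
def W (e : ℕ) (x : Cantor) : Set ℕ :=
  {n | ∃ k, ((Denumerable.ofNat Code e).eval (Nat.pair (Encodable.encode (pre x k)) n)).Dom}

/-- `x ≤_T y` via program `i`: the `i`-th set enumerated from `y` is the graph of `x`. -/
def TredVia (i : ℕ) (x y : Cantor) : Prop :=
  ∀ n b, x n = b ↔ Nat.pair n (cond b 1 0) ∈ W i y

/-- Turing reducibility. -/
def Tred (x y : Cantor) : Prop := ∃ i, TredVia i x y

/-- Turing equivalence. -/
def Teq (x y : Cantor) : Prop := Tred x y ∧ Tred y x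

/-- `x ≤_m y` via the program `i` (which has to compute a total function). -/
def MredVia (i : ℕ) (x y : Cantor) : Prop :=
  ∀ n, ∃ m ∈ (Denumerable.ofNat Code i).eval n, x n = y m

/-- Many-one reducibility. -/
def Mred (x y : Cantor) : Prop := ∃ i, MredVia i x y

/-- Many-one equivalence. -/
def Meq (x y : Cantor) : Prop := Mred x y ∧ Mred y x

/-- The function `ρ` is computable from `c` via program `i`. -/
def CompVia (i : ℕ) (c : Cantor) (ρ : ℕ → ℕ) : Prop :=
  ∀ n m, ρ n = m ↔ Nat.pair n m ∈ W i c

/-- `x ≤_m^c y`: many-one reducibility by a function computable from `c`. -/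
def MredRel (c x y : Cantor) : Prop :=
  ∃ ρ : ℕ → ℕ, (∃ i, CompVia i c ρ) ∧ ∀ n, x n = y (ρ n)

/-- The Turing jump. -/
noncomputable def jump (x : Cantor) : Cantor := by
  classical exact fun e => decide (e ∈ W e x)

/-- The complement. -/
def co (x : Cantor) : Cantor := fun n => !(x n)

/-- The join `x ⊕ y`. -/
def join (x y : Cantor) : Cantor := fun n => cond n.bodd (y n.div2) (x n.div2)

/-- `f` is Turing invariant. -/
def TInv (f : Cantor → Cantor) : Prop := ∀ x y, Teq x y → Teq (f x) (f y)

/-- `f` is `(≡_T, ≡_m)`-invariant. -/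
def TMInv (f : Cantor → Cantor) : Prop := ∀ x y, Teq x y → Meq (f x) (f y)

/-- `f ≤_T g` on a cone. -/
def LeCone (f g : Cantor → Cantor) : Prop := ∃ c, ∀ x, Tred c x → Tred (f x) (g x)

/-- `f ≤_m^∇ g`. -/
def LeNabla (f g : Cantor → Cantor) : Prop := ∃ c, ∀ x, Tred c x → MredRel c (f x) (g x)

/-- `f` is Turing invariant and `f x ≥_T x` on a cone. -/
def Incr (f : Cantor → Cantor) : Prop := TInv f ∧ LeCone id f

end Pool.Agent.MCM
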