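import Pool.Agent.MCM.Meas

set_option autoImplicit false

namespace Pool.Agent.MCM

open Nat.Partrec (Code)
open MeasureTheory Encodable Denumerable

/-! ### The two coded plays -/

/-- the play `1^e 0 x` of player I -/
def playI (e : ℕ) (x : Cantor) : Cantor :=
  fun n => if n < e then true else if n = e then false else x (n - (e + 1))

/-- the play `0^e v` of player II -/
def playII (e : ℕ) (v : Cantor) : Cantor := fun n => if n < e then false else v (n - e)

theorem playI_pre (e : ℕ) (x : Cantor) (n : ℕ) :
    pre (playI e x) (n + 1) =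
      (((List.range e).map (fun _ => true)) ++ false :: pre x (n + 1)).take (n + 1) := by
  apply List.ext_getElem
  · simp
    omega
  · intro i h1 h2
    have hi : i < n + 1 := by simpa using h1
    rw [List.getElem_take]
    by_cases h : i < e
    · rw [List.getElem_append_left (by simpa using h)]
      simp [pre, playI, h]
    · rw [List.getElem_append_right (by simpa using h)]
      simp only [List.length_map, List.length_range]
      by_cases h' : i = e
      · subst h'
        simp [pre, playI]
      · have h3 : i - e = (i - (e + 1)) + 1 := by omega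
        simp only [h3, List.getElem_cons_succ]
        have h4 : ¬ i < e := h
        simp [pre, playI, h4, h']

theorem playII_pre (e : ℕ) (v : Cantor) (n : ℕ) :
    pre (playII e v) (n + e + 1) = ((List.range e).map (fun _ => false)) ++ pre v (n + 1) := by
  apply List.ext_getElem
  · simp
    omega
  · intro i h1 h2
    by_cases h : i < e
    · rw [List.getElem_append_left (by simpa using h)]
      simp [pre, playII, h]
    · rw [List.getElem_append_right (by simpa using h)]
      simp [pre, playII, h]

/-- the relation that `σ` is the initial segment of length `n` is uniformly enumerable -/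
theorem URE.pre : URE (fun x (p : ℕ × List Bool) => p.2 = Pool.Agent.MCM.pre x p.1) := by
  refine ⟨fun p => (decide (p.2.1 ≤ p.1.length) && decide (p.2.2 = p.1.take p.2.1)) = true,
    RE.of_computable ?_, ?_⟩
  · have h1 : Primrec (fun p : List Bool × (ℕ × List Bool) => decide (p.2.1 ≤ p.1.length)) :=
      Primrec.nat_le.decide.comp (Primrec.fst.comp Primrec.snd)
        (Primrec.list_length.comp Primrec.fst)
    have h2 : Primrec (fun p : List Bool × (ℕ × List Bool) =>
        decide (p.2.2 = p.1.take p.2.1)) :=
      Primrec.eq.decide.comp (Primrec.snd.comp Primrec.snd)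
        (Primrec.list_take.comp (Primrec.fst.comp Primrec.snd) Primrec.fst)
    exact (Primrec.and.comp h1 h2).to_comp
  · rintro x ⟨n, σ⟩
    simp only [Bool.and_eq_true, decide_eq_true_eq, pre_length]
    constructor
    · rintro rfl
      exact ⟨n, le_rfl, by rw [pre_take, min_self]⟩
    · rintro ⟨k, hk, h⟩
      rw [h, pre_take, min_eq_left hk]

/-- the code of a strategy as a real -/
noncomputable def scode (σ : List Bool → Bool) : Cantor :=
  fun n => ((decode (α := List Bool) n).elim false σ)

theorem scode_encode (σ : List Bool → Bool) (l : List Bool) : scode σ (encode l) = σ l := by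
  simp [scode]

/-- The answers of a strategy for II to the plays `1^e 0 x` are uniformly computable from `x`,
if the strategy is computable from `x`. -/
theorem answer_index (i : ℕ) : ∃ s : ℕ → ℕ, Computable s ∧
    ∀ (τ : List Bool → Bool) (x : Cantor), TredVia i (scode τ) x →
      ∀ e, TredVia (s e) (fun n => τ (pre (playI e x) (n + 1))) x := by
  have hrep : Computable (fun p : (ℕ × (ℕ × Bool)) × List Bool =>
      ((((List.range p.1.1).map (fun _ => true)) ++ false :: p.2).take (p.1.2.1 + 1))) := by
    have h1 : Primrec (fun p : (ℕ × (ℕ × Bool)) × List Bool =>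
        ((List.range p.1.1).map (fun _ => true))) :=
      Primrec.list_map (Primrec.list_range.comp (Primrec.fst.comp Primrec.fst))
        (Primrec.const true).to₂
    have h2 : Primrec (fun p : (ℕ × (ℕ × Bool)) × List Bool => false :: p.2) :=
      Primrec.list_cons.comp (Primrec.const false) Primrec.snd
    have h3 : Primrec (fun p : (ℕ × (ℕ × Bool)) × List Bool => p.1.2.1 + 1) :=
      Primrec.succ.comp (Primrec.fst.comp (Primrec.snd.comp Primrec.fst))
    exact (Primrec.list_take.comp h3 (Primrec.list_append.comp h1 h2)).to_comp
  have hU : URE (fun x (a : ℕ × (ℕ × Bool)) => ∃ σ : List Bool,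
      σ = pre x (a.2.1 + 1) ∧
      gcode (encode ((((List.range a.1).map (fun _ => true)) ++ false :: σ).take (a.2.1 + 1)),
        a.2.2) ∈ W i x) := by
    refine URE.exists (P := fun x (p : (ℕ × (ℕ × Bool)) × List Bool) =>
      p.2 = pre x (p.1.2.1 + 1) ∧
      gcode (encode ((((List.range p.1.1).map (fun _ => true)) ++ false :: p.2).take
        (p.1.2.1 + 1)), p.1.2.2) ∈ W i x) ?_
    refine URE.and ?_ ?_
    · refine URE.pre.comp (f := fun p : (ℕ × (ℕ × Bool)) × List Bool =>
        (p.1.2.1 + 1, p.2)) ?_
      exact Computable.pair (Computable.succ.comp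
        (Computable.fst.comp (Computable.snd.comp Computable.fst))) Computable.snd
    · refine URE.W_comp (Computable.const i) (gcode_computable.comp ?_)
      exact Computable.pair (Computable.encode.comp hrep)
        (Computable.snd.comp (Computable.snd.comp Computable.fst))
  obtain ⟨s, hs, hsP⟩ := URE.graph_smn hU
  refine ⟨s, hs, fun τ x hτ e => hsP e _ x fun n b => ?_⟩
  dsimp only
  constructor
  · intro h
    refine ⟨pre x (n + 1), rfl, ?_⟩
    rw [← playI_pre]
    refine (hτ (encode (pre (playI e x) (n + 1))) b).1 ?_
    rw [scode_encode, h]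
  · rintro ⟨σ, rfl, h⟩
    rw [← playI_pre] at h
    have := (hτ (encode (pre (playI e x) (n + 1))) b).2 h
    rw [scode_encode] at this
    exact this

/-- Programs with the same enumeration operator, from Rogers' fixed point theorem. -/
theorem exists_fixed {s : ℕ → ℕ} (hs : Computable s) : ∃ e, ∀ x, W (s e) x = W e x := by
  obtain ⟨c, hc⟩ := Code.fixed_point (f := fun c => ofNat Code (s (encode c)))
    ((Computable.ofNat Code).comp (hs.comp Computable.encode))
  refine ⟨encode c, fun x => ?_⟩
  unfold W
  rw [Denumerable.ofNat_encode, hc]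

/-- the payoff set of the game -/
def payoff (A : Set Cantor) : Set Cantor :=
  {p | ∃ e, (∀ i < e, p (2 * i) = true) ∧ p (2 * e) = false ∧
    (fun n => p (2 * (n + (e + 1)))) ∈ A ∧
    TredVia e (fun n => p (2 * n + 1)) (fun n => p (2 * (n + (e + 1))))}

theorem payoff_measurable {m : MeasurableSpace Cantor} (hm : DetAlgebra m) {A : Set Cantor}
    (hA : MeasurableSet[m] A) : MeasurableSet[m] (payoff A) := by
  have h1 : ∀ e, Continuous (fun p : Cantor => fun n => p (2 * (n + (e + 1)))) := fun e =>
    continuous_pi fun n => continuous_apply _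
  have h2 : Continuous (fun p : Cantor => fun n => p (2 * n + 1)) :=
    continuous_pi fun n => continuous_apply _
  have : payoff A = ⋃ e, (((⋂ i, ⋂ (_ : i < e), {p : Cantor | p (2 * i) = true}) ∩
      {p : Cantor | p (2 * e) = false}) ∩
      ((fun p : Cantor => fun n => p (2 * (n + (e + 1)))) ⁻¹' A)) ∩
      {p : Cantor | TredVia e (fun n => p (2 * n + 1)) (fun n => p (2 * (n + (e + 1))))} := by
    ext p
    simp only [payoff, Set.mem_ofPred_eq, Set.mem_iUnion, Set.mem_inter_iff, Set.mem_iInter,
      Set.mem_preimage]
    constructor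
    · rintro ⟨e, h1, h2, h3, h4⟩
      exact ⟨e, ⟨⟨h1, h2⟩, h3⟩, h4⟩
    · rintro ⟨e, ⟨⟨h1, h2⟩, h3⟩, h4⟩
      exact ⟨e, h1, h2, h3, h4⟩
  rw [this]
  refine MeasurableSet.iUnion fun e => MeasurableSet.inter (MeasurableSet.inter
    (MeasurableSet.inter ?_ ?_) ?_) ?_
  · exact MeasurableSet.iInter fun i => MeasurableSet.iInter fun _ => hm.basic _
  · exact Fn.bfalse (Fn.of_continuous hm continuous_id) _
  · exact hm.preim _ (h1 e) _ hA
  · exact Fn.tredVia (Fn.of_continuous hm h2) (Fn.of_continuous hm (h1 e)) e

/-- shifting a real by `e` -/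
theorem shift_index (e : ℕ) : ∃ k, ∀ v : Cantor, TredVia k v (playII e v) := by
  obtain ⟨k, hk⟩ := URE.graph (P := fun y (p : ℕ × Bool) => y (p.1 + e) = p.2)
    (URE.bit.comp (f := fun p : ℕ × Bool => (p.1 + e, p.2))
      ((Primrec.pair (Primrec.nat_add.comp Primrec.fst (Primrec.const e))
        Primrec.snd).to_comp))
  refine ⟨k, fun v => hk _ _ fun n b => ?_⟩
  simp [playII]

/-- The answers of a strategy for I (which is computable from the real `v`) to the plays
`0^e v` of II. -/
theorem answerI_index (e : ℕ) : ∃ k, ∀ (σ : List Bool → Bool) (c w : Cantor),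
    TredVia k (fun n => σ (pre (playII e (join (join c (scode σ)) w)) (n + (e + 1))))
      (join (join c (scode σ)) w) := by
  have hU : URE (fun v (a : ℕ × Bool) => ∃ l : List Bool, l = pre v (a.1 + 1) ∧
      v (2 * (2 * encode (((List.range e).map (fun _ => false)) ++ l) + 1)) = a.2) := by
    refine URE.exists (P := fun v (p : (ℕ × Bool) × List Bool) => p.2 = pre v (p.1.1 + 1) ∧
      v (2 * (2 * encode (((List.range e).map (fun _ => false)) ++ p.2) + 1)) = p.1.2) ?_
    refine URE.and ?_ ?_
    · refine URE.pre.comp (f := fun p : (ℕ × Bool) × List Bool => (p.1.1 + 1, p.2)) ?_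
      exact Computable.pair (Computable.succ.comp (Computable.fst.comp Computable.fst))
        Computable.snd
    · refine URE.bit.comp (f := fun p : (ℕ × Bool) × List Bool =>
        (2 * (2 * encode (((List.range e).map (fun _ => false)) ++ p.2) + 1), p.1.2)) ?_
      have h1 : Primrec (fun p : (ℕ × Bool) × List Bool =>
          encode (((List.range e).map (fun _ => false)) ++ p.2)) :=
        Primrec.encode.comp (Primrec.list_append.comp (Primrec.const _) Primrec.snd)
      exact (Primrec.pair (Primrec.nat_mul.comp (Primrec.const 2)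
        (Primrec.succ.comp (Primrec.nat_mul.comp (Primrec.const 2) h1)))
        (Primrec.snd.comp Primrec.fst)).to_comp
  obtain ⟨k, hk⟩ := URE.graph hU
  refine ⟨k, fun σ c w => hk _ _ fun n b => ?_⟩
  dsimp only
  have key : ∀ l : List Bool, join (join c (scode σ)) w (2 * (2 * encode l + 1)) = σ l := by
    intro l
    rw [join_even, join_odd, scode_encode]
  constructor
  · intro h
    refine ⟨_, rfl, ?_⟩
    rw [key, ← playII_pre, ← h]
    rfl
  · rintro ⟨l, rfl, h⟩
    rw [key, ← playII_pre] at h
    exact h

/-- **Pointed maps.** If a countable family of sets of a determined `σ`-algebra covers a cone,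
then one of them contains the range of a continuous map `T` with `T w ≡_T s ⊕ w` uniformly. -/
theorem pointed {m : MeasurableSpace Cantor} (hm : DetAlgebra m) (A : ℕ → Set Cantor)
    (hA : ∀ k, MeasurableSet[m] (A k)) (c : Cantor) (hcov : ∀ x, Tred c x → ∃ k, x ∈ A k) :
    ∃ k, ∃ s : Cantor, ∃ T : Cantor → Cantor, Continuous T ∧ (∀ w, T w ∈ A k) ∧ Tred c s ∧
      (∃ i, ∀ w, TredVia i (T w) (join s w)) ∧ ∃ j, ∀ w, TredVia j (join s w) (T w) := by
  -- one of the sets is cofinal
  have hcof : ∃ k, ∀ z, ∃ x ∈ A k, Tred z x := by
    by_contra hno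
    push Not at hno
    choose z hz using hno
    let Z : Cantor := fun n => z n.unpair.1 n.unpair.2
    have hZ : ∀ k, Tred (z k) Z := by
      intro k
      obtain ⟨i, hi⟩ := URE.graph (P := fun y (p : ℕ × Bool) => y (Nat.pair k p.1) = p.2)
        (URE.bit.comp (f := fun p : ℕ × Bool => (Nat.pair k p.1, p.2))
          ((Primrec.pair (Primrec₂.natPair.comp (Primrec.const k) Primrec.fst)
            Primrec.snd).to_comp))
      exact ⟨i, hi _ _ fun n b => by simp [Z]⟩
    obtain ⟨k, hk⟩ := hcov (join c Z) (Tred.left c Z)
    exact hz k _ hk ((hZ k).trans (Tred.right c Z))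
  obtain ⟨k, hk⟩ := hcof
  refine ⟨k, ?_⟩
  rcases hm.det _ (payoff_measurable hm (hA k)) with ⟨σ, hσ⟩ | ⟨τ, hτ⟩
  · -- player I wins
    -- the number `e` chosen by the strategy against `0^ω`
    obtain ⟨e, he1, he2, -, -⟩ := hσ (fun _ => false)
    simp only [join_even] at he1 he2
    set s : Cantor := join c (scode σ) with hs
    let T : Cantor → Cantor := fun w n => σ (pre (playII e (join s w)) (n + (e + 1)))
    have hpre : ∀ v : Cantor, ∀ i ≤ e, pre (playII e v) i = pre (fun _ => false) i := by
      intro v i hi
      apply List.ext_getElem (by simp)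
      intro r h1 h2
      have : r < e := by simp at h1; omega
      simp [pre, playII, this]
    have main : ∀ w, T w ∈ A k ∧ TredVia e (playII e (join s w)) (T w) := by
      intro w
      obtain ⟨e', h1, h2, h3, h4⟩ := hσ (playII e (join s w))
      simp only [join_even, join_odd] at h1 h2 h3 h4
      have hee' : e' = e := by
        rcases lt_trichotomy e' e with hlt | heq | hgt
        · exfalso
          have := he1 e' hlt
          rw [hpre _ e' hlt.le] at h2
          rw [this] at h2
          exact Bool.noConfusion h2
        · exact heq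
        · exfalso
          have := h1 e hgt
          rw [hpre _ e le_rfl] at this
          rw [this] at he2
          exact Bool.noConfusion he2
      subst hee'
      exact ⟨h3, h4⟩
    obtain ⟨i, hi⟩ := answerI_index e
    have hi' : ∀ w, TredVia i (T w) (join s w) := fun w => hi σ c w
    obtain ⟨j0, hj0⟩ := shift_index e
    obtain ⟨j, hj⟩ := TredVia.trans_index j0 e
    refine ⟨s, T, continuous_of_tredVia (continuous_join_left s) i hi',
      fun w => (main w).1, Tred.left _ _, ⟨i, hi'⟩, j, fun w => ?_⟩
    exact hj _ _ _ (hj0 _) (main w).2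
  · -- player II cannot win
    exfalso
    obtain ⟨x, hxA, i, hi⟩ := hk (scode τ)
    obtain ⟨s, hs, hsP⟩ := answer_index i
    obtain ⟨e, he⟩ := exists_fixed hs
    have h1 := hsP τ x hi e
    have h2 : TredVia e (fun n => τ (pre (playI e x) (n + 1))) x := by
      intro n b
      rw [← he x]
      exact h1 n b
    apply hτ (playI e x)
    have hx : (fun n => join (playI e x) (fun n => τ (pre (playI e x) (n + 1)))
        (2 * (n + (e + 1)))) = x := by
      funext n
      rw [join_even]
      have h3 : ¬ (n + (e + 1) < e) := by omega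
      have h4 : ¬ (n + (e + 1) = e) := by omega
      simp [playI, h3, h4]
    refine ⟨e, ?_, ?_, ?_, ?_⟩
    · intro i hi'
      rw [join_even]
      simp [playI, hi']
    · rw [join_even]
      simp [playI]
    · rw [hx]; exact hxA
    · rw [hx]
      simp only [join_odd]
      exact h2

end Pool.Agent.MCM
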