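import Pool.Agent.MCM.URE

set_option autoImplicit false

namespace Pool.Agent.MCM

open Nat.Partrec (Code)
open Encodable Denumerable

/-- code of a point of a graph -/
def gcode (p : ℕ × Bool) : ℕ := Nat.pair p.1 (cond p.2 1 0)

theorem gcode_inj {p q : ℕ × Bool} (h : gcode p = gcode q) : p = q := by
  obtain ⟨n, b⟩ := p
  obtain ⟨m, c⟩ := q
  simp only [gcode, Nat.pair_eq_pair] at h
  obtain ⟨h1, h2⟩ := h
  subst h1
  cases b <;> cases c <;> simp_all

theorem gcode_primrec : Primrec gcode :=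
  Primrec₂.natPair.comp Primrec.fst
    (Primrec.cond Primrec.snd (Primrec.const 1) (Primrec.const 0))

theorem gcode_computable : Computable gcode := gcode_primrec.to_comp

/-- indices for reals whose graph is uniformly enumerable, with a parameter -/
theorem URE.graph_smn {P : Cantor → ℕ × (ℕ × Bool) → Prop} (h : URE P) :
    ∃ s : ℕ → ℕ, Computable s ∧ ∀ a (x y : Cantor), (∀ n b, x n = b ↔ P y (a, (n, b))) →
      TredVia (s a) x y := by
  obtain ⟨s, hs, hsP⟩ := URE.smn (P := fun y (q : ℕ × ℕ) => ∃ p : ℕ × Bool,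
      (decide (q.2 = gcode p)) = true ∧ P y (q.1, p)) (by
    refine URE.exists (P := fun y (r : (ℕ × ℕ) × (ℕ × Bool)) =>
      (decide (r.1.2 = gcode r.2)) = true ∧ P y (r.1.1, r.2)) ?_
    refine URE.and (URE.const (RE.of_computable ?_)) (h.comp ?_)
    · have h1 : Primrec (fun r : (ℕ × ℕ) × (ℕ × Bool) => r.1.2) :=
        Primrec.snd.comp Primrec.fst
      have h2 : Primrec (fun r : (ℕ × ℕ) × (ℕ × Bool) => gcode r.2) :=
        gcode_primrec.comp Primrec.snd
      exact (Primrec.eq.decide.comp h1 h2).to_comp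
    · exact Computable.pair (Computable.fst.comp Computable.fst) Computable.snd)
  refine ⟨s, hs, fun a x y hxy n b => ?_⟩
  rw [show Nat.pair n (cond b 1 0) = gcode (n, b) from rfl, hsP, hxy n b]
  constructor
  · intro hP
    exact ⟨(n, b), by simp, hP⟩
  · rintro ⟨p, h1, h2⟩
    simp only [decide_eq_true_eq] at h1
    rw [← gcode_inj h1] at h2
    exact h2

theorem URE.graph {P : Cantor → ℕ × Bool → Prop} (h : URE P) :
    ∃ i : ℕ, ∀ x y : Cantor, (∀ n b, x n = b ↔ P y (n, b)) → TredVia i x y := by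
  obtain ⟨s, -, hs⟩ := URE.graph_smn (P := fun y (q : ℕ × (ℕ × Bool)) => P y q.2)
    (h.comp Computable.snd)
  exact ⟨s 0, fun x y hxy => hs 0 x y hxy⟩

theorem TredVia.refl_index : ∃ i, ∀ x, TredVia i x x := by
  obtain ⟨i, hi⟩ := URE.graph URE.bit
  exact ⟨i, fun x => hi x x fun n b => Iff.rfl⟩

theorem TredVia.trans_index (i j : ℕ) :
    ∃ k, ∀ x y z, TredVia i x y → TredVia j y z → TredVia k x z := by
  obtain ⟨Q, hQ, hQP⟩ := URE.subst j (P := fun y (p : ℕ × Bool) =>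
    gcode p ∈ Pool.Agent.MCM.W i y) (URE.W_comp (Computable.const i) gcode_computable)
  obtain ⟨k, hk⟩ := URE.graph hQ
  refine ⟨k, fun x y z hxy hyz => hk x z fun n b => ?_⟩
  rw [← hQP y z hyz]
  exact hxy n b

theorem join_even (x y : Cantor) (n : ℕ) : join x y (2 * n) = x n := by
  simp [join]

theorem join_odd (x y : Cantor) (n : ℕ) : join x y (2 * n + 1) = y n := by
  simp [join, Nat.bodd_succ, Nat.div2_succ, Nat.bodd_mul]

theorem TredVia.left_index : ∃ i, ∀ x y, TredVia i x (join x y) := by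
  obtain ⟨i, hi⟩ := URE.graph (P := fun w (p : ℕ × Bool) => w (2 * p.1) = p.2)
    (URE.bit.comp (f := fun p : ℕ × Bool => (2 * p.1, p.2))
      ((Primrec.pair (Primrec.nat_mul.comp (Primrec.const 2) Primrec.fst)
        Primrec.snd).to_comp))
  refine ⟨i, fun x y => hi x _ fun n b => ?_⟩
  dsimp only
  rw [join_even]

theorem TredVia.right_index : ∃ i, ∀ x y, TredVia i y (join x y) := by
  obtain ⟨i, hi⟩ := URE.graph (P := fun w (p : ℕ × Bool) => w (2 * p.1 + 1) = p.2)
    (URE.bit.comp (f := fun p : ℕ × Bool => (2 * p.1 + 1, p.2))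
      ((Primrec.pair (Primrec.succ.comp (Primrec.nat_mul.comp (Primrec.const 2) Primrec.fst))
        Primrec.snd).to_comp))
  refine ⟨i, fun x y => hi y _ fun n b => ?_⟩
  dsimp only
  rw [join_odd]

theorem TredVia.join_index (i j : ℕ) :
    ∃ k, ∀ x y z, TredVia i x z → TredVia j y z → TredVia k (join x y) z := by
  have h1 : URE (fun z (p : ℕ × Bool) => gcode (p.1.div2, p.2) ∈ Pool.Agent.MCM.W i z) :=
    URE.W_comp (Computable.const i) (gcode_computable.comp
      (Computable.pair (Primrec.nat_div2.to_comp.comp Computable.fst) Computable.snd))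
  have h2 : URE (fun z (p : ℕ × Bool) => gcode (p.1.div2, p.2) ∈ Pool.Agent.MCM.W j z) :=
    URE.W_comp (Computable.const j) (gcode_computable.comp
      (Computable.pair (Primrec.nat_div2.to_comp.comp Computable.fst) Computable.snd))
  have h3 : URE (fun (_ : Cantor) (p : ℕ × Bool) => (!p.1.bodd) = true) :=
    URE.const (RE.of_computable
      (Primrec.not.to_comp.comp (Primrec.nat_bodd.to_comp.comp Computable.fst)))
  have h4 : URE (fun (_ : Cantor) (p : ℕ × Bool) => p.1.bodd = true) :=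
    URE.const (RE.of_computable (Primrec.nat_bodd.to_comp.comp Computable.fst))
  obtain ⟨k, hk⟩ := URE.graph ((h3.and h1).or (h4.and h2))
  refine ⟨k, fun x y z hx hy => hk _ z fun n b => ?_⟩
  have e1 := hx n.div2 b
  have e2 := hy n.div2 b
  change _ ↔ gcode (n.div2, b) ∈ _ at e1 e2
  dsimp only
  rw [← e1, ← e2]
  unfold join
  cases n.bodd <;> simp

/-- a computable function `s0` with `s0 (gcode (n,b)) ∈ x'` iff `x n = b`. -/
theorem bit_to_jump : ∃ s : ℕ → ℕ, Computable s ∧ ∀ (x : Cantor) n b,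
    (s (gcode (n, b)) ∈ Pool.Agent.MCM.W (s (gcode (n, b))) x ↔ x n = b) := by
  obtain ⟨s, hs, hsP⟩ := URE.smn (P := fun y (q : ℕ × ℕ) => ∃ p : ℕ × Bool,
      (decide (q.1 = gcode p)) = true ∧ y p.1 = p.2) (by
    refine URE.exists (P := fun y (r : (ℕ × ℕ) × (ℕ × Bool)) =>
      (decide (r.1.1 = gcode r.2)) = true ∧ y r.2.1 = r.2.2) ?_
    refine URE.and (URE.const (RE.of_computable ?_)) (URE.bit.comp Computable.snd)
    have h1 : Primrec (fun r : (ℕ × ℕ) × (ℕ × Bool) => r.1.1) :=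
      Primrec.fst.comp Primrec.fst
    have h2 : Primrec (fun r : (ℕ × ℕ) × (ℕ × Bool) => gcode r.2) :=
      gcode_primrec.comp Primrec.snd
    exact (Primrec.eq.decide.comp h1 h2).to_comp)
  refine ⟨s, hs, fun x n b => ?_⟩
  rw [hsP]
  constructor
  · rintro ⟨p, h1, h2⟩
    simp only [decide_eq_true_eq] at h1
    rw [← gcode_inj h1] at h2
    exact h2
  · intro h
    exact ⟨(n, b), by simp, h⟩

theorem jump_eq_true (x : Cantor) (e : ℕ) : jump x e = true ↔ e ∈ W e x := by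
  classical
  unfold jump
  simp

theorem jump_eq_false (x : Cantor) (e : ℕ) : jump x e = false ↔ ¬ e ∈ W e x := by
  rw [← jump_eq_true]; simp

/-- `∃ m, ⟨g a, m⟩ ∈ W i c ∧ m ∈ W m y` is enumerable from `y ⊕ c`, uniformly. -/
theorem URE.through {α : Type} [Primcodable α] (i : ℕ) {g : α → ℕ} (hg : Computable g) :
    ∃ Q : Cantor → α → Prop, URE Q ∧ ∀ y c ρ, CompVia i c ρ →
      ∀ a, Q (join y c) a ↔ jump y (ρ (g a)) = true := by
  obtain ⟨l, hl⟩ := TredVia.left_index
  obtain ⟨r, hr⟩ := TredVia.right_index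
  obtain ⟨Q1, hQ1, h1⟩ := URE.subst r (P := fun c (p : α × ℕ) =>
    Nat.pair (g p.1) p.2 ∈ Pool.Agent.MCM.W i c) (URE.W_comp (Computable.const i)
      (Primrec₂.natPair.to_comp.comp (hg.comp Computable.fst) Computable.snd))
  obtain ⟨Q2, hQ2, h2⟩ := URE.subst l (P := fun y (p : α × ℕ) =>
    p.2 ∈ Pool.Agent.MCM.W p.2 y) (URE.W_comp Computable.snd Computable.snd)
  refine ⟨fun w a => ∃ m, Q1 w (a, m) ∧ Q2 w (a, m), URE.exists (hQ1.and hQ2), ?_⟩
  intro y c ρ hρ a
  constructor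
  · rintro ⟨m, ha, hb⟩
    rw [← h1 c (join y c) (hr y c)] at ha
    rw [← h2 y (join y c) (hl y c)] at hb
    rw [← (hρ (g a) m)] at ha
    rw [jump_eq_true, ha]
    exact hb
  · intro h
    refine ⟨ρ (g a), ?_, ?_⟩
    · rw [← h1 c (join y c) (hr y c)]
      exact (hρ (g a) _).1 rfl
    · rw [← h2 y (join y c) (hl y c)]
      exact (jump_eq_true _ _).1 h

/-- from an m-reduction of jumps to a Turing reduction, uniformly. -/
theorem of_jump_index (i : ℕ) : ∃ k, ∀ c x y ρ, CompVia i c ρ →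
    (∀ e, jump x e = jump y (ρ e)) → TredVia k x (join y c) := by
  obtain ⟨s, hs, hsx⟩ := bit_to_jump
  obtain ⟨Q, hQ, hQP⟩ := URE.through (α := ℕ × Bool) i (hs.comp gcode_computable)
  obtain ⟨k, hk⟩ := URE.graph hQ
  refine ⟨k, fun c x y ρ hρ h => hk x _ fun n b => ?_⟩
  rw [hQP y c ρ hρ, ← h, jump_eq_true, hsx]

theorem of_jump_co_index (i : ℕ) : ∃ k, ∀ c x y ρ, CompVia i c ρ →
    (∀ e, jump x e = !(jump y (ρ e))) → TredVia k x (join y c) := by
  obtain ⟨s, hs, hsx⟩ := bit_to_jump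
  obtain ⟨Q, hQ, hQP⟩ := URE.through (α := ℕ × Bool) i
    (g := fun p => s (gcode (p.1, !p.2))) (hs.comp (gcode_computable.comp
      (Computable.pair Computable.fst (Primrec.not.to_comp.comp Computable.snd))))
  obtain ⟨k, hk⟩ := URE.graph hQ
  refine ⟨k, fun c x y ρ hρ h => hk x _ fun n b => ?_⟩
  rw [hQP y c ρ hρ]
  dsimp only
  have h1 := h (s (gcode (n, !b)))
  have h2 := hsx x n (!b)
  rw [← jump_eq_true] at h2
  rw [show (jump y (ρ (s (gcode (n, !b)))) = true) ↔
      ¬ (jump x (s (gcode (n, !b))) = true) from by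
    rw [h1]; cases jump y (ρ (s (gcode (n, !b)))) <;> simp]
  rw [h2]
  cases x n <;> cases b <;> simp

/-- if the jump of `x` reduces both to the jump of `y` and to its complement then it is
computable from `y` and the parameters -/
theorem of_jump_both (i j : ℕ) : ∃ k, ∀ c d x y ρ ρ', CompVia i c ρ → CompVia j d ρ' →
    (∀ e, jump x e = jump y (ρ e)) → (∀ e, jump x e = !(jump y (ρ' e))) →
      TredVia k (jump x) (join (join y c) (join y d)) := by
  obtain ⟨l, hl⟩ := TredVia.left_index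
  obtain ⟨r, hr⟩ := TredVia.right_index
  obtain ⟨Q, hQ, hQP⟩ := URE.through (α := ℕ × Bool) i (g := fun p => p.1) Computable.fst
  obtain ⟨Q', hQ', hQP'⟩ := URE.through (α := ℕ × Bool) j (g := fun p => p.1) Computable.fst
  obtain ⟨R, hR, hRP⟩ := URE.subst l hQ
  obtain ⟨R', hR', hRP'⟩ := URE.subst r hQ'
  have h3 : URE (fun (_ : Cantor) (p : ℕ × Bool) => p.2 = true) :=
    URE.const (RE.of_computable Computable.snd)
  have h4 : URE (fun (_ : Cantor) (p : ℕ × Bool) => (!p.2) = true) :=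
    URE.const (RE.of_computable (Primrec.not.to_comp.comp Computable.snd))
  obtain ⟨k, hk⟩ := URE.graph ((h3.and hR).or (h4.and hR'))
  refine ⟨k, fun c d x y ρ ρ' hρ hρ' h h' => hk _ _ fun n b => ?_⟩
  dsimp only
  rw [← hRP (join y c) _ (hl _ _), ← hRP' (join y d) _ (hr _ _), hQP y c ρ hρ,
    hQP' y d ρ' hρ']
  dsimp only
  have e1 := h n
  have e2 := h' n
  revert e1 e2
  cases jump x n <;> cases jump y (ρ n) <;> cases jump y (ρ' n) <;> cases b <;> simp

/-- computable functions have m-reduction indices -/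
theorem MredVia.of_computable {s : ℕ → ℕ} (hs : Computable s) :
    ∃ i, ∀ x y : Cantor, (∀ n, x n = y (s n)) → MredVia i x y := by
  obtain ⟨c, hc⟩ := Code.exists_code.1 (Partrec.nat_iff.1 (Computable.partrec hs))
  refine ⟨encode c, fun x y h n => ⟨s n, ?_, h n⟩⟩
  rw [Denumerable.ofNat_encode, hc]
  simp

theorem Mred.jump_of_Tred {x y : Cantor} (h : Tred x y) : Mred (jump x) (jump y) := by
  obtain ⟨j, hj⟩ := h
  obtain ⟨Q, hQ, hQP⟩ := URE.subst j (P := fun x (e : ℕ) => e ∈ Pool.Agent.MCM.W e x)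
    (URE.W_comp Computable.id Computable.id)
  obtain ⟨s, hs, hsP⟩ := URE.smn (P := fun y (p : ℕ × ℕ) => Q y p.1) (hQ.comp Computable.fst)
  obtain ⟨i, hi⟩ := MredVia.of_computable hs
  refine ⟨i, hi _ _ fun n => ?_⟩
  rw [Bool.eq_iff_iff, jump_eq_true, jump_eq_true, hsP, hQP x y hj]

theorem MredVia.tred_index (i : ℕ) : ∃ k, ∀ x y, MredVia i x y → TredVia k x y := by
  have h : URE (fun y (p : ℕ × Bool) => ∃ m : ℕ, m ∈ (ofNat Code i).eval p.1 ∧ y m = p.2) := by
    refine URE.exists (P := fun y (q : (ℕ × Bool) × ℕ) =>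
      q.2 ∈ (ofNat Code i).eval q.1.1 ∧ y q.2 = q.1.2) ?_
    refine URE.and (URE.const (RE.mem_eval_comp (Computable.const i)
      (Computable.fst.comp Computable.fst) Computable.snd)) ?_
    exact URE.bit.comp (Computable.pair Computable.snd (Computable.snd.comp Computable.fst))
  obtain ⟨k, hk⟩ := URE.graph h
  refine ⟨k, fun x y hxy => hk x y fun n b => ?_⟩
  obtain ⟨m, hm, hxm⟩ := hxy n
  dsimp only
  constructor
  · intro hb
    exact ⟨m, hm, hxm ▸ hb⟩
  · rintro ⟨m', hm', hb⟩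
    rw [hxm, Part.mem_unique hm hm', hb]

theorem Mred.tred {x y : Cantor} (h : Mred x y) : Tred x y := by
  obtain ⟨i, hi⟩ := h
  obtain ⟨k, hk⟩ := MredVia.tred_index i
  exact ⟨k, hk x y hi⟩

theorem Tred.refl (x : Cantor) : Tred x x := by
  obtain ⟨i, hi⟩ := TredVia.refl_index
  exact ⟨i, hi x⟩

theorem Tred.trans {x y z : Cantor} (h1 : Tred x y) (h2 : Tred y z) : Tred x z := by
  obtain ⟨i, hi⟩ := h1
  obtain ⟨j, hj⟩ := h2
  obtain ⟨k, hk⟩ := TredVia.trans_index i j
  exact ⟨k, hk x y z hi hj⟩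

theorem Tred.left (x y : Cantor) : Tred x (join x y) := by
  obtain ⟨i, hi⟩ := TredVia.left_index
  exact ⟨i, hi x y⟩

theorem Tred.right (x y : Cantor) : Tred y (join x y) := by
  obtain ⟨i, hi⟩ := TredVia.right_index
  exact ⟨i, hi x y⟩

theorem Tred.join {x y z : Cantor} (h1 : Tred x z) (h2 : Tred y z) :
    Tred (Pool.Agent.MCM.join x y) z := by
  obtain ⟨i, hi⟩ := h1
  obtain ⟨j, hj⟩ := h2
  obtain ⟨k, hk⟩ := TredVia.join_index i j
  exact ⟨k, hk x y z hi hj⟩

theorem Tred.jump (x : Cantor) : Tred x (Pool.Agent.MCM.jump x) := by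
  obtain ⟨s, hs, hsx⟩ := bit_to_jump
  obtain ⟨i, hi⟩ := URE.graph (P := fun w (p : ℕ × Bool) => w (s (gcode p)) = true)
    (URE.bit.comp (f := fun p : ℕ × Bool => (s (gcode p), true))
      (Computable.pair (hs.comp gcode_computable) (Computable.const true)))
  refine ⟨i, hi x _ fun n b => ?_⟩
  rw [jump_eq_true, hsx]

theorem not_jump_Tred (x : Cantor) : ¬ Tred (jump x) x := by
  rintro ⟨i, hi⟩
  obtain ⟨e, he⟩ := URE.code (P := fun x (n : ℕ) => gcode (n, false) ∈ W i x)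
    (URE.W_comp (Computable.const i) (gcode_computable.comp
      (Computable.pair Computable.id (Computable.const false))))
  have h1 := he e x
  have h2 := hi e false
  change _ ↔ gcode (e, false) ∈ W i x at h2
  rw [← h2, jump_eq_false] at h1
  exact (iff_not_self h1)

theorem Teq.refl (x : Cantor) : Teq x x := ⟨Tred.refl x, Tred.refl x⟩
theorem Teq.symm {x y : Cantor} (h : Teq x y) : Teq y x := ⟨h.2, h.1⟩
theorem Teq.trans {x y z : Cantor} (h1 : Teq x y) (h2 : Teq y z) : Teq x z :=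
  ⟨h1.1.trans h2.1, h2.2.trans h1.2⟩

/-- non-uniform consequence: `x' ≤_m^c y'` implies `x ≤_T y ⊕ c` -/
theorem Tred.of_MredRel_jump {c x y : Cantor} (h : MredRel c (Pool.Agent.MCM.jump x)
    (Pool.Agent.MCM.jump y)) : Tred x (Pool.Agent.MCM.join y c) := by
  obtain ⟨ρ, ⟨i, hi⟩, h⟩ := h
  obtain ⟨k, hk⟩ := of_jump_index i
  exact ⟨k, hk c x y ρ hi h⟩

theorem Tred.of_MredRel_jump_co {c x y : Cantor} (h : MredRel c (Pool.Agent.MCM.jump x)
    (co (Pool.Agent.MCM.jump y))) : Tred x (Pool.Agent.MCM.join y c) := by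
  obtain ⟨ρ, ⟨i, hi⟩, h⟩ := h
  obtain ⟨k, hk⟩ := of_jump_co_index i
  exact ⟨k, hk c x y ρ hi h⟩

theorem Tred.of_MredRel_jump_both {c d x y : Cantor} (h : MredRel c (Pool.Agent.MCM.jump x)
    (Pool.Agent.MCM.jump y)) (h' : MredRel d (Pool.Agent.MCM.jump x)
    (co (Pool.Agent.MCM.jump y))) :
    Tred (Pool.Agent.MCM.jump x) (Pool.Agent.MCM.join (Pool.Agent.MCM.join y c)
      (Pool.Agent.MCM.join y d)) := by
  obtain ⟨ρ, ⟨i, hi⟩, h⟩ := h
  obtain ⟨ρ', ⟨j, hj⟩, h'⟩ := h'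
  obtain ⟨k, hk⟩ := of_jump_both i j
  exact ⟨k, hk c d x y ρ ρ' hi hj h h'⟩

theorem MredRel.co {c x y : Cantor} (h : MredRel c (co x) y) : MredRel c x (co y) := by
  obtain ⟨ρ, hρ, h⟩ := h
  refine ⟨ρ, hρ, fun n => ?_⟩
  have := h n
  simp only [Pool.Agent.MCM.co] at this ⊢
  rw [← this]; simp

theorem MredRel.co' {c x y : Cantor} (h : MredRel c (Pool.Agent.MCM.co x)
    (Pool.Agent.MCM.co y)) : MredRel c x y := by
  obtain ⟨ρ, hρ, h⟩ := h
  refine ⟨ρ, hρ, fun n => ?_⟩
  have := h n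
  simp only [Pool.Agent.MCM.co] at this
  exact Bool.not_inj this

end Pool.Agent.MCM
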