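import Pool.Agent.MCM.Statements
import Pool.Agent.MCM.Red

set_option autoImplicit false

namespace Pool.Agent.MCM

theorem LeCone.trans {f g h : Cantor → Cantor} (h1 : LeCone f g) (h2 : LeCone g h) :
    LeCone f h := by
  obtain ⟨c, hc⟩ := h1
  obtain ⟨d, hd⟩ := h2
  refine ⟨join c d, fun x hx => (hc x ?_).trans (hd x ?_)⟩
  · exact (Tred.left c d).trans hx
  · exact (Tred.right c d).trans hx

theorem LeCone.refl (f : Cantor → Cantor) : LeCone f f := ⟨fun _ => false, fun _ _ => Tred.refl _⟩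

theorem tred_jump_mono {a b : Cantor} (hab : Tred a b) :
    Tred (jump a) (jump b) :=
  (Mred.jump_of_Tred hab).tred

theorem tinv_jump {f : Cantor → Cantor} (hf : TInv f) : TInv (fun x => jump (f x)) :=
  fun x y hxy => ⟨tred_jump_mono (hf x y hxy).1, tred_jump_mono (hf x y hxy).2⟩

theorem tinv_jumpTM {f : Cantor → Cantor} (hf : TInv f) : TMInv (fun x => jump (f x)) :=
  fun x y hxy => ⟨Mred.jump_of_Tred (hf x y hxy).1, Mred.jump_of_Tred (hf x y hxy).2⟩

theorem MredVia.co {i : ℕ} {x y : Cantor} (h : MredVia i x y) :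
    MredVia i (Pool.Agent.MCM.co x) (Pool.Agent.MCM.co y) := by
  intro n
  obtain ⟨m, hm, h⟩ := h n
  exact ⟨m, hm, by simp [Pool.Agent.MCM.co, h]⟩

theorem tminv_co {f : Cantor → Cantor} (hf : TMInv f) : TMInv (fun x => co (f x)) := by
  intro x y hxy
  obtain ⟨⟨i, hi⟩, ⟨j, hj⟩⟩ := hf x y hxy
  exact ⟨⟨i, hi.co⟩, ⟨j, hj.co⟩⟩

theorem incr_jump {f : Cantor → Cantor} (hf : Incr f) : Incr (fun x => jump (f x)) := by
  refine ⟨tinv_jump hf.1, ?_⟩
  obtain ⟨c, hc⟩ := hf.2
  exact ⟨c, fun x hx => (hc x hx).trans (Tred.jump _)⟩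

/-- a bound with a parameter is a bound on a cone, for increasing functions -/
theorem LeCone.of_param {f g : Cantor → Cantor} (hg : LeCone id g) {c : Cantor}
    (h : ∀ x, Tred c x → Tred (f x) (join (g x) c)) : LeCone f g := by
  obtain ⟨d, hd⟩ := hg
  refine ⟨join c d, fun x hx => ?_⟩
  have hc : Tred c x := (Tred.left c d).trans hx
  have hdx : Tred d x := (Tred.right c d).trans hx
  exact (h x hc).trans (Tred.join (Tred.refl _) (hc.trans (hd x hdx)))

theorem LeCone.of_nabla {f g : Cantor → Cantor} (hg : LeCone id g)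
    (h : LeNabla (fun x => jump (f x)) (fun x => jump (g x))) : LeCone f g := by
  obtain ⟨c, hc⟩ := h
  exact LeCone.of_param hg fun x hx => Tred.of_MredRel_jump (hc x hx)

theorem LeCone.of_nabla_co {f g : Cantor → Cantor} (hg : LeCone id g)
    (h : LeNabla (fun x => jump (f x)) (fun x => co (jump (g x)))) : LeCone f g := by
  obtain ⟨c, hc⟩ := h
  exact LeCone.of_param hg fun x hx => Tred.of_MredRel_jump_co (hc x hx)

theorem LeCone.of_nabla_both {f g : Cantor → Cantor} (hg : LeCone id g)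
    (h : LeNabla (fun x => jump (f x)) (fun x => jump (g x)))
    (h' : LeNabla (fun x => jump (f x)) (fun x => co (jump (g x)))) :
    LeCone (fun x => jump (f x)) g := by
  obtain ⟨c, hc⟩ := h
  obtain ⟨d, hd⟩ := h'
  refine LeCone.of_param (c := join c d) hg fun x hx => ?_
  have h1 : Tred c x := (Tred.left c d).trans hx
  have h2 : Tred d x := (Tred.right c d).trans hx
  refine (Tred.of_MredRel_jump_both (hc x h1) (hd x h2)).trans ?_
  have hL := Tred.left (g x) (join c d)
  have hR := Tred.right (g x) (join c d)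
  exact Tred.join (Tred.join hL ((Tred.left c d).trans hR))
    (Tred.join hL ((Tred.right c d).trans hR))

theorem LeNabla.of_co {f g : Cantor → Cantor}
    (h : LeNabla (fun x => co (f x)) (fun x => co (g x))) : LeNabla f g := by
  obtain ⟨c, hc⟩ := h
  exact ⟨c, fun x hx => (hc x hx).co'⟩

theorem LeNabla.of_co_left {f g : Cantor → Cantor}
    (h : LeNabla (fun x => co (f x)) g) : LeNabla f (fun x => co (g x)) := by
  obtain ⟨c, hc⟩ := h
  exact ⟨c, fun x hx => (hc x hx).co⟩

/-- The many-one version of Part II of Martin's conjecture implies Part II. -/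
theorem MCII_of_MCmII (𝓕 : Set (Cantor → Cantor)) (hj : ∀ f ∈ 𝓕, (fun x => jump (f x)) ∈ 𝓕)
    (hc : ∀ f ∈ 𝓕, (fun x => co (f x)) ∈ 𝓕) (H : MCmII 𝓕) : MCII 𝓕 := by
  obtain ⟨H1, H2⟩ := H
  have total : ∀ f g : Increasing 𝓕, LeCone f.1 g.1 ∨ LeCone g.1 f.1 := by
    rintro ⟨f, hf, hfi⟩ ⟨g, hg, hgi⟩
    rcases H1 _ (hj g hg) _ (hj f hf) (tinv_jumpTM hgi.1) (tinv_jumpTM hfi.1) with h | h
    · exact Or.inl (LeCone.of_nabla hgi.2 h)
    · exact Or.inr (LeCone.of_nabla_co hfi.2 h)
  have wf : WellFounded (Below 𝓕) := by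
    rw [wellFounded_iff_isEmpty_descending_chain]
    refine ⟨fun ⟨F, hF⟩ => ?_⟩
    have hdesc : ∀ i j, i ≤ j → LeCone (F j).1 (F i).1 := by
      intro i j hij
      induction j, hij using Nat.le_induction with
      | base => exact LeCone.refl _
      | succ j _ ih => exact (hF j).1.trans ih
    obtain ⟨i, j, hij, h⟩ := H2 (fun n x => jump ((F n).1 x))
      (fun n => ⟨hj _ (F n).2.1, tinv_jumpTM (F n).2.2.1⟩)
    have h1 : LeCone (F i).1 (F j).1 := LeCone.of_nabla (F j).2.2.2 h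
    exact (hF i).2 (h1.trans (hdesc (i + 1) j hij))
  refine ⟨total, fun f g h => LeCone.trans, wf, fun f => ?_⟩
  have hf' : (fun x => jump (f.1 x)) ∈ 𝓕 ∧ Incr (fun x => jump (f.1 x)) :=
    ⟨hj _ f.2.1, incr_jump f.2.2⟩
  refine ⟨hf', ?_⟩
  set f' : Increasing 𝓕 := ⟨fun x => jump (f.1 x), hf'⟩ with hf'def
  -- below `f'` means below or equivalent to `f`
  have key : ∀ g : Increasing 𝓕, Below 𝓕 g f' → LeCone g.1 f.1 := by
    intro g hg
    by_contra hgf
    apply hg.2
    have n1 : ¬ LeNabla (fun x => jump (g.1 x)) (fun x => jump (f.1 x)) :=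
      fun h => hgf (LeCone.of_nabla f.2.2.2 h)
    have n2 : ¬ LeNabla (fun x => jump (g.1 x)) (fun x => co (jump (f.1 x))) :=
      fun h => hgf (LeCone.of_nabla_co f.2.2.2 h)
    have hG := hj _ g.2.1
    have hGi := tinv_jumpTM g.2.2.1
    have hFm := hj _ f.2.1
    have hFi := tinv_jumpTM f.2.2.1
    have a1 : LeNabla (fun x => jump (f.1 x)) (fun x => co (jump (g.1 x))) :=
      (H1 _ hFm _ hG hFi hGi).resolve_left n1
    have a2 : LeNabla (fun x => co (jump (f.1 x))) (fun x => co (jump (g.1 x))) :=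
      (H1 _ (hc _ hFm) _ hG (tminv_co hFi) hGi).resolve_left n2
    exact LeCone.of_nabla_both g.2.2.2 (LeNabla.of_co a2) a1
  have rank_mono : ∀ g : Increasing 𝓕, LeCone g.1 f.1 →
      (wf.apply g).rank ≤ (wf.apply f).rank := by
    intro g hg
    rw [(wf.apply g).rank_eq]
    apply Ordinal.iSup_le
    rintro ⟨h, hh⟩
    apply Order.succ_le_of_lt
    have hhf : Below 𝓕 h f := by
      refine ⟨hh.1.trans hg, fun hfh => hh.2 (hg.trans hfh)⟩
    exact (wf.apply f).rank_lt_of_rel hhf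
  have hff' : Below 𝓕 f f' := by
    refine ⟨⟨fun _ => false, fun x _ => Tred.jump _⟩, ?_⟩
    rintro ⟨c, hc'⟩
    exact not_jump_Tred _ (hc' c (Tred.refl c))
  apply le_antisymm
  · rw [(wf.apply f').rank_eq]
    apply Ordinal.iSup_le
    rintro ⟨g, hg⟩
    rw [← Order.succ_eq_add_one]
    exact Order.succ_le_succ (rank_mono g (key g hg))
  · rw [← Order.succ_eq_add_one]
    exact Order.succ_le_of_lt ((wf.apply f').rank_lt_of_rel hff')

end Pool.Agent.MCM
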