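import Pool.Agent.MCM.Statements2
import Pool.Agent.MCM.PartTwo

set_option autoImplicit false

namespace Pool.Agent.MCM

open Nat.Partrec (Code)
open MeasureTheory

theorem pre_succ (x : Cantor) (k : ℕ) : pre x (k + 1) = pre x k ++ [x k] := by
  simp [pre, List.range_succ]

variable {m : MeasurableSpace Cantor}

theorem Fn.of_continuous (hm : DetAlgebra m) {φ : Cantor → Cantor} (hφ : Continuous φ) :
    φ ∈ Fn m := fun n => hm.preim φ hφ _ (hm.basic n)

theorem Fn.comp (hm : DetAlgebra m) {f φ : Cantor → Cantor} (hf : f ∈ Fn m) (hφ : Continuous φ) :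
    (fun x => f (φ x)) ∈ Fn m := fun n => hm.preim φ hφ _ (hf n)

theorem Fn.const (a : Cantor) : (fun _ => a) ∈ Fn m := by
  intro n
  by_cases h : a n = true
  · simp [h]
  · simp [h]

theorem Fn.bfalse {f : Cantor → Cantor} (hf : f ∈ Fn m) (n : ℕ) :
    MeasurableSet[m] {x | f x n = false} := by
  have : {x | f x n = false} = {x | f x n = true}ᶜ := by
    ext x; simp
  rw [this]
  exact (hf n).compl

theorem Fn.bit {f : Cantor → Cantor} (hf : f ∈ Fn m) (n : ℕ) (b : Bool) :
    MeasurableSet[m] {x | f x n = b} := by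
  cases b
  · exact Fn.bfalse hf n
  · exact hf n

theorem Fn.pre {f : Cantor → Cantor} (hf : f ∈ Fn m) (k : ℕ) :
    ∀ S : Set (List Bool), MeasurableSet[m] {x | Pool.Agent.MCM.pre (f x) k ∈ S} := by
  induction k with
  | zero =>
    intro S
    by_cases h : ([] : List Bool) ∈ S
    · simp [Pool.Agent.MCM.pre, h]
    · simp [Pool.Agent.MCM.pre, h]
  | succ k ih =>
    intro S
    have : {x | Pool.Agent.MCM.pre (f x) (k + 1) ∈ S} =
        ({x | f x k = true} ∩ {x | Pool.Agent.MCM.pre (f x) k ∈ {τ | τ ++ [true] ∈ S}}) ∪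
        ({x | f x k = false} ∩ {x | Pool.Agent.MCM.pre (f x) k ∈ {τ | τ ++ [false] ∈ S}}) := by
      ext x
      simp only [Set.mem_ofPred_eq, Set.mem_union, Set.mem_inter_iff, pre_succ]
      cases f x k <;> simp
    rw [this]
    exact ((hf k).inter (ih _)).union ((Fn.bfalse hf k).inter (ih _))

theorem Fn.W {f : Cantor → Cantor} (hf : f ∈ Fn m) (e n : ℕ) :
    MeasurableSet[m] {x | n ∈ Pool.Agent.MCM.W e (f x)} := by
  have : {x | n ∈ Pool.Agent.MCM.W e (f x)} = ⋃ k, {x | Pool.Agent.MCM.pre (f x) k ∈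
      {τ : List Bool | ((Denumerable.ofNat Code e).eval (Nat.pair (Encodable.encode τ) n)).Dom}} := by
    ext x
    simp [Pool.Agent.MCM.W]
  rw [this]
  exact MeasurableSet.iUnion fun k => Fn.pre hf k _

theorem meas_iff {p q : Cantor → Prop} (hp : MeasurableSet[m] {x | p x})
    (hq : MeasurableSet[m] {x | q x}) : MeasurableSet[m] {x | p x ↔ q x} := by
  have : {x | p x ↔ q x} = ({x | p x} ∩ {x | q x}) ∪ ({x | p x}ᶜ ∩ {x | q x}ᶜ) := by
    ext x
    simp only [Set.mem_ofPred_eq, Set.mem_union, Set.mem_inter_iff, Set.mem_compl_iff]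
    tauto
  rw [this]
  exact (hp.inter hq).union (hp.compl.inter hq.compl)

theorem Fn.eqbit {f g : Cantor → Cantor} (hf : f ∈ Fn m) (hg : g ∈ Fn m) (n k : ℕ) :
    MeasurableSet[m] {x | f x n = g x k} := by
  have : {x | f x n = g x k} = {x | f x n = true ↔ g x k = true} := by
    ext x
    simp only [Set.mem_ofPred_eq]
    exact Bool.eq_iff_iff
  rw [this]
  exact meas_iff (hf n) (hg k)

theorem Fn.jump {f : Cantor → Cantor} (hf : f ∈ Fn m) :
    (fun x => Pool.Agent.MCM.jump (f x)) ∈ Fn m := by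
  intro n
  have : {x | Pool.Agent.MCM.jump (f x) n = true} = {x | n ∈ Pool.Agent.MCM.W n (f x)} := by
    ext x
    exact jump_eq_true _ _
  rw [this]
  exact Fn.W hf n n

theorem Fn.co {f : Cantor → Cantor} (hf : f ∈ Fn m) :
    (fun x => Pool.Agent.MCM.co (f x)) ∈ Fn m := by
  intro n
  have : {x | Pool.Agent.MCM.co (f x) n = true} = {x | f x n = false} := by
    ext x
    simp [Pool.Agent.MCM.co]
  rw [this]
  exact Fn.bfalse hf n

theorem Fn.join {f g : Cantor → Cantor} (hf : f ∈ Fn m) (hg : g ∈ Fn m) :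
    (fun x => Pool.Agent.MCM.join (f x) (g x)) ∈ Fn m := by
  intro n
  unfold Pool.Agent.MCM.join
  cases h : n.bodd
  · simpa [h] using hf n.div2
  · simpa [h] using hg n.div2

theorem Fn.tredVia {f g : Cantor → Cantor} (hf : f ∈ Fn m) (hg : g ∈ Fn m) (e : ℕ) :
    MeasurableSet[m] {x | TredVia e (f x) (g x)} := by
  have : {x | TredVia e (f x) (g x)} = ⋂ n, ⋂ b,
      {x | f x n = b ↔ Nat.pair n (cond b 1 0) ∈ Pool.Agent.MCM.W e (g x)} := by
    ext x
    simp only [TredVia, Set.mem_ofPred_eq, Set.mem_iInter]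
  rw [this]
  exact MeasurableSet.iInter fun n => MeasurableSet.iInter fun b =>
    meas_iff (Fn.bit hf n b) (Fn.W hg e _)

/-! ### topology -/

theorem isClopen_bit {φ : Cantor → Cantor} (hφ : Continuous φ) (n : ℕ) (b : Bool) :
    IsClopen {x | φ x n = b} := by
  have h : Continuous fun x => φ x n := (continuous_apply n).comp hφ
  exact (isClopen_discrete ({b} : Set Bool)).preimage h

theorem isClopen_pre {φ : Cantor → Cantor} (hφ : Continuous φ) (k : ℕ) :
    ∀ S : Set (List Bool), IsClopen {x | pre (φ x) k ∈ S} := by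
  induction k with
  | zero =>
    intro S
    by_cases h : ([] : List Bool) ∈ S
    · simpa [Pool.Agent.MCM.pre, h] using isClopen_univ
    · simpa [Pool.Agent.MCM.pre, h] using isClopen_empty
  | succ k ih =>
    intro S
    have : {x | pre (φ x) (k + 1) ∈ S} =
        ({x | φ x k = true} ∩ {x | pre (φ x) k ∈ {τ | τ ++ [true] ∈ S}}) ∪
        ({x | φ x k = false} ∩ {x | pre (φ x) k ∈ {τ | τ ++ [false] ∈ S}}) := by
      ext x
      simp only [Set.mem_ofPred_eq, Set.mem_union, Set.mem_inter_iff, pre_succ]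
      cases φ x k <;> simp
    rw [this]
    exact ((isClopen_bit hφ k true).inter (ih _)).union ((isClopen_bit hφ k false).inter (ih _))

theorem isOpen_W {φ : Cantor → Cantor} (hφ : Continuous φ) (e n : ℕ) :
    IsOpen {x | n ∈ W e (φ x)} := by
  have : {x | n ∈ Pool.Agent.MCM.W e (φ x)} = ⋃ k, {x | Pool.Agent.MCM.pre (φ x) k ∈
      {τ : List Bool | ((Denumerable.ofNat Code e).eval (Nat.pair (Encodable.encode τ) n)).Dom}} := by
    ext x
    simp [Pool.Agent.MCM.W]
  rw [this]
  exact isOpen_iUnion fun k => (isClopen_pre hφ k _).isOpen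

/-- a function with a uniform reduction to a continuous function is continuous -/
theorem continuous_of_tredVia {T φ : Cantor → Cantor} (hφ : Continuous φ) (i : ℕ)
    (h : ∀ w, TredVia i (T w) (φ w)) : Continuous T := by
  refine continuous_pi fun n => ?_
  refine ⟨fun s _ => ?_⟩
  have : (fun w => T w n) ⁻¹' s = ⋃ b ∈ s, {w | Nat.pair n (cond b 1 0) ∈ W i (φ w)} := by
    ext w
    simp only [Set.mem_preimage, Set.mem_iUnion, Set.mem_ofPred_eq, exists_prop]
    constructor
    · intro hs
      exact ⟨_, hs, (h w n _).1 rfl⟩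
    · rintro ⟨b, hb, hw⟩
      rw [(h w n b).2 hw]
      exact hb
  rw [this]
  exact isOpen_biUnion fun b _ => isOpen_W hφ i _

theorem continuous_join_left (s : Cantor) : Continuous (fun w => join s w) := by
  refine continuous_pi fun n => ?_
  unfold join
  cases h : n.bodd
  · simpa [h] using continuous_const
  · simpa [h] using continuous_apply n.div2

end Pool.Agent.MCM
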