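import Pool.Agent.MCM.Defs

set_option autoImplicit false

namespace Pool.Agent.MCM

open Nat.Partrec (Code)
open Encodable Denumerable

/-- Normal form for recursively enumerable predicates. -/
def RE {α : Type} [Primcodable α] (P : α → Prop) : Prop :=
  ∃ q : α × ℕ → Bool, Computable q ∧ ∀ a, P a ↔ ∃ n, q (a, n) = true

section
variable {α β γ : Type} [Primcodable α] [Primcodable β] [Primcodable γ]

theorem RE.of_iff {P Q : α → Prop} (h : RE P) (H : ∀ a, Q a ↔ P a) : RE Q := by
  obtain ⟨q, hq, hP⟩ := h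
  exact ⟨q, hq, fun a => (H a).trans (hP a)⟩

theorem RE.of_computable {f : α → Bool} (hf : Computable f) : RE (fun a => f a = true) :=
  ⟨fun p => f p.1, hf.comp Computable.fst, fun a => by simp⟩

theorem RE.comp {P : β → Prop} (h : RE P) {f : α → β} (hf : Computable f) :
    RE (fun a => P (f a)) := by
  obtain ⟨q, hq, hP⟩ := h
  refine ⟨fun p => q (f p.1, p.2), hq.comp ?_, fun a => hP _⟩
  exact Computable.pair (hf.comp Computable.fst) Computable.snd

theorem RE.and {P Q : α → Prop} (h1 : RE P) (h2 : RE Q) : RE (fun a => P a ∧ Q a) := by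
  obtain ⟨q1, hq1, hP1⟩ := h1
  obtain ⟨q2, hq2, hP2⟩ := h2
  refine ⟨fun p => q1 (p.1, p.2.unpair.1) && q2 (p.1, p.2.unpair.2), ?_, fun a => ?_⟩
  · refine Primrec.and.to_comp.comp (hq1.comp ?_) (hq2.comp ?_)
    · exact Computable.pair Computable.fst
        (Computable.fst.comp (Computable.unpair.comp Computable.snd))
    · exact Computable.pair Computable.fst
        (Computable.snd.comp (Computable.unpair.comp Computable.snd))
  · dsimp only
    rw [hP1, hP2]
    constructor
    · rintro ⟨⟨n, hn⟩, ⟨m, hm⟩⟩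
      exact ⟨Nat.pair n m, by simp [hn, hm]⟩
    · rintro ⟨n, hn⟩
      simp only [Bool.and_eq_true] at hn
      exact ⟨⟨_, hn.1⟩, ⟨_, hn.2⟩⟩

theorem RE.or {P Q : α → Prop} (h1 : RE P) (h2 : RE Q) : RE (fun a => P a ∨ Q a) := by
  obtain ⟨q1, hq1, hP1⟩ := h1
  obtain ⟨q2, hq2, hP2⟩ := h2
  refine ⟨fun p => q1 p || q2 p, Primrec.or.to_comp.comp hq1 hq2, fun a => ?_⟩
  dsimp only
  rw [hP1, hP2]
  simp only [Bool.or_eq_true]
  exact exists_or.symm

theorem RE.exists {P : α × β → Prop} (h : RE P) : RE (fun a => ∃ b, P (a, b)) := by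
  obtain ⟨q, hq, hP⟩ := h
  refine ⟨fun p => Option.casesOn (decode (α := β) p.2.unpair.1) false
    (fun b => q ((p.1, b), p.2.unpair.2)), ?_, fun a => ?_⟩
  · refine Computable.option_casesOn (Computable.decode.comp
      (Computable.fst.comp (Computable.unpair.comp Computable.snd))) (Computable.const false) ?_
    refine hq.comp ?_
    refine Computable.pair (Computable.pair (Computable.fst.comp Computable.fst)
      Computable.snd) ?_
    exact Computable.snd.comp (Computable.unpair.comp (Computable.snd.comp Computable.fst))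
  · constructor
    · rintro ⟨b, hb⟩
      obtain ⟨n, hn⟩ := (hP _).1 hb
      exact ⟨Nat.pair (encode b) n, by simp [hn]⟩
    · rintro ⟨n, hn⟩
      dsimp only at hn
      cases hd : (decode (α := β) n.unpair.1) with
      | none => rw [hd] at hn; simp at hn
      | some b =>
        rw [hd] at hn
        exact ⟨b, (hP _).2 ⟨_, hn⟩⟩

/-- Bounded universal quantification. -/
theorem RE.ball {P : α × ℕ → Prop} (h : RE P) :
    RE (fun p : α × ℕ => ∀ i < p.2, P (p.1, i)) := by
  obtain ⟨q, hq, hP⟩ := h
  -- bounded existential search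
  let ex : (α × ℕ) × ℕ → Bool := fun p => p.2.rec false (fun n ih => ih || q (p.1, n))
  have hex : Computable ex := by
    refine Computable.nat_rec (f := fun p : (α × ℕ) × ℕ => p.2)
      (g := fun _ : (α × ℕ) × ℕ => false)
      (h := fun (p : (α × ℕ) × ℕ) (r : ℕ × Bool) => r.2 || q (p.1, r.1))
      Computable.snd (Computable.const false) ?_
    refine Primrec.or.to_comp.comp (Computable.snd.comp Computable.snd) (hq.comp ?_)
    exact Computable.pair (Computable.fst.comp Computable.fst)
      (Computable.fst.comp Computable.snd)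
  have hex_iff : ∀ a N, ex (a, N) = true ↔ ∃ n < N, q (a, n) = true := by
    intro a N
    induction N with
    | zero => simp [ex]
    | succ N ih =>
      have : ex (a, N + 1) = (ex (a, N) || q (a, N)) := rfl
      rw [this, Bool.or_eq_true, ih]
      constructor
      · rintro (⟨n, hn, h⟩ | h)
        · exact ⟨n, by omega, h⟩
        · exact ⟨N, by omega, h⟩
      · rintro ⟨n, hn, h⟩
        rcases Nat.lt_succ_iff_lt_or_eq.1 hn with hlt | heq
        · exact Or.inl ⟨n, hlt, h⟩
        · subst heq; exact Or.inr h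
  let al : (α × ℕ) × ℕ → Bool :=
    fun p => p.1.2.rec true (fun i ih => ih && ex ((p.1.1, i), p.2))
  have hal : Computable al := by
    refine Computable.nat_rec (f := fun p : (α × ℕ) × ℕ => p.1.2)
      (g := fun _ : (α × ℕ) × ℕ => true)
      (h := fun (p : (α × ℕ) × ℕ) (r : ℕ × Bool) => r.2 && ex ((p.1.1, r.1), p.2))
      (Computable.snd.comp Computable.fst) (Computable.const true) ?_
    refine Primrec.and.to_comp.comp (Computable.snd.comp Computable.snd) (hex.comp ?_)
    exact Computable.pair (Computable.pair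
      (Computable.fst.comp (Computable.fst.comp Computable.fst))
      (Computable.fst.comp Computable.snd)) (Computable.snd.comp Computable.fst)
  have hal_iff : ∀ a k N, al ((a, k), N) = true ↔ ∀ i < k, ∃ n < N, q ((a, i), n) = true := by
    intro a k N
    induction k with
    | zero => simp [al]
    | succ k ih =>
      have : al ((a, k + 1), N) = (al ((a, k), N) && ex ((a, k), N)) := rfl
      rw [this, Bool.and_eq_true, ih, hex_iff]
      constructor
      · rintro ⟨h1, h2⟩ i hi
        rcases Nat.lt_succ_iff_lt_or_eq.1 hi with hlt | heq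
        · exact h1 i hlt
        · subst heq; exact h2
      · intro h
        exact ⟨fun i hi => h i (by omega), h k (by omega)⟩
  refine ⟨al, hal, ?_⟩
  rintro ⟨a, k⟩
  constructor
  · intro h
    have h' : ∀ i < k, ∃ n, q ((a, i), n) = true := fun i hi => (hP _).1 (h i hi)
    choose! g hg using h'
    refine ⟨(Finset.range k).sup g + 1, (hal_iff a k ((Finset.range k).sup g + 1)).2
      fun i hi => ⟨g i, ?_, hg i hi⟩⟩
    have : g i ≤ (Finset.range k).sup g := Finset.le_sup (Finset.mem_range.2 hi)
    omega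
  · rintro ⟨N, hN⟩ i hi
    obtain ⟨n, -, hn⟩ := (hal_iff _ _ _).1 hN i hi
    exact (hP _).2 ⟨n, hn⟩

theorem RE.ball_comp {P : α × ℕ → Prop} (h : RE P) {f : α → ℕ} (hf : Computable f) :
    RE (fun a => ∀ i < f a, P (a, i)) :=
  (RE.ball h).comp (Computable.pair Computable.id hf)

/-- The halting predicate. -/
theorem RE.halt : RE (fun p : ℕ × ℕ => ((ofNat Code p.1).eval p.2).Dom) := by
  refine ⟨fun p => (Code.evaln p.2 (ofNat Code p.1.1) p.1.2).isSome, ?_, ?_⟩
  · refine Primrec.option_isSome.to_comp.comp ?_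
    refine Code.primrec_evaln.to_comp.comp
      (g := fun p : (ℕ × ℕ) × ℕ => ((p.2, ofNat Code p.1.1), p.1.2)) ?_
    refine Computable.pair (Computable.pair Computable.snd
      ((Computable.ofNat Code).comp (Computable.fst.comp Computable.fst)))
      (Computable.snd.comp Computable.fst)
  · rintro ⟨c, n⟩
    dsimp only
    rw [Part.dom_iff_mem]
    constructor
    · rintro ⟨y, hy⟩
      obtain ⟨k, hk⟩ := Code.evaln_complete.1 hy
      exact ⟨k, Option.isSome_iff_exists.2 ⟨y, hk⟩⟩
    · rintro ⟨k, hk⟩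
      obtain ⟨y, hy⟩ := Option.isSome_iff_exists.1 hk
      exact ⟨y, Code.evaln_sound hy⟩

theorem RE.halt_comp {f g : α → ℕ} (hf : Computable f) (hg : Computable g) :
    RE (fun a => ((ofNat Code (f a)).eval (g a)).Dom) :=
  RE.halt.comp (Computable.pair hf hg)

/-- The graph of the universal function. -/
theorem RE.mem_eval : RE (fun p : ℕ × (ℕ × ℕ) => p.2.2 ∈ (ofNat Code p.1).eval p.2.1) := by
  refine ⟨fun p => decide (Code.evaln p.2 (ofNat Code p.1.1) p.1.2.1 = some p.1.2.2), ?_, ?_⟩
  · have h1 : Primrec (fun p : (ℕ × (ℕ × ℕ)) × ℕ =>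
        Code.evaln p.2 (ofNat Code p.1.1) p.1.2.1) := by
      refine Code.primrec_evaln.comp
        (g := fun p : (ℕ × (ℕ × ℕ)) × ℕ => ((p.2, ofNat Code p.1.1), p.1.2.1)) ?_
      refine Primrec.pair (Primrec.pair Primrec.snd
        ((Primrec.ofNat Code).comp (Primrec.fst.comp Primrec.fst)))
        (Primrec.fst.comp (Primrec.snd.comp Primrec.fst))
    have h2 : Primrec (fun p : (ℕ × (ℕ × ℕ)) × ℕ => some p.1.2.2) :=
      Primrec.option_some.comp (Primrec.snd.comp (Primrec.snd.comp Primrec.fst))
    exact (Primrec.eq.decide.comp h1 h2).to_comp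
  · rintro ⟨c, n, m⟩
    dsimp only
    rw [Code.evaln_complete]
    simp

theorem RE.mem_eval_comp {f g h : α → ℕ} (hf : Computable f) (hg : Computable g)
    (hh : Computable h) : RE (fun a => h a ∈ (ofNat Code (f a)).eval (g a)) :=
  RE.mem_eval.comp (Computable.pair hf (Computable.pair hg hh))

/-- Every RE predicate on pairs is uniformly the domain of a program (s-m-n). -/
theorem RE.smn {P : ℕ × ℕ → Prop} (h : RE P) :
    ∃ s : ℕ → ℕ, Computable s ∧ ∀ a n, ((ofNat Code (s a)).eval n).Dom ↔ P (a, n) := by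
  obtain ⟨q, hq, hP⟩ := h
  have hp : Partrec (fun m : ℕ => Nat.rfind fun n => Part.some (q (m.unpair, n))) := by
    refine Partrec.rfind ?_
    exact (hq.comp (Computable.pair (Computable.unpair.comp Computable.fst)
      Computable.snd)).partrec
  obtain ⟨c, hc⟩ := Code.exists_code.1 (Partrec.nat_iff.1 hp)
  obtain ⟨f, hf, hfe⟩ := Code.smn
  refine ⟨fun a => encode (f c a), ?_, fun a n => ?_⟩
  · exact Computable.encode.comp (hf.comp (Computable.const c) Computable.id)
  · rw [Denumerable.ofNat_encode, hfe, hc]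
    simp only [Nat.unpair_pair]
    rw [hP]
    constructor
    · intro hd
      obtain ⟨m, hm⟩ := Part.dom_iff_mem.1 hd
      exact ⟨m, by simpa using (Nat.mem_rfind.1 hm).1⟩
    · rintro ⟨m, hm⟩
      rw [Nat.rfind_dom]
      exact ⟨m, by simpa using hm, fun _ => trivial⟩

theorem RE.code {P : ℕ → Prop} (h : RE P) :
    ∃ e : ℕ, ∀ n, ((ofNat Code e).eval n).Dom ↔ P n := by
  obtain ⟨s, -, hs⟩ := RE.smn (P := fun p : ℕ × ℕ => P p.2) (h.comp Computable.snd)
  exact ⟨s 0, fun n => hs 0 n⟩

end

end Pool.Agent.MCM
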