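import Pool.Agent.MCM.Game

set_option autoImplicit false

/-!
# The reduction of `MC ∧ SC` to the removal of a parameter

Under the many-one conjectures (for the functions of a determined `σ`-algebra), Part I of Martin's
conjecture and Steel's conjecture hold up to a constant parameter, and they hold outright iff
every Turing invariant function which is not constant on a cone is measure preserving.
-/

namespace Pool.Agent.MCM

open Nat.Partrec (Code)
open MeasureTheory Encodable Denumerable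

/-- `f` is measure preserving: `f x` is above any given real, on a cone. -/
def MeasPres (f : Cantor → Cantor) : Prop := ∀ a, ∃ d, ∀ x, Tred d x → Tred a (f x)

theorem CompVia.unique {i : ℕ} {c : Cantor} {ρ ρ' : ℕ → ℕ} (h : CompVia i c ρ)
    (h' : CompVia i c ρ') : ρ = ρ' := by
  funext n
  exact (h n (ρ' n)).2 ((h' n (ρ' n)).1 rfl)

theorem MredRel.mono {c d x y : Cantor} (h : Tred c d) (h' : MredRel c x y) : MredRel d x y := by
  obtain ⟨j, hj⟩ := h
  obtain ⟨ρ, ⟨i, hi⟩, hρ⟩ := h'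
  obtain ⟨Q, hQ, hQP⟩ := URE.subst j (P := fun c (p : ℕ) => p ∈ Pool.Agent.MCM.W i c)
    (URE.W_comp (Computable.const i) Computable.id)
  obtain ⟨e, he⟩ := URE.code hQ
  refine ⟨ρ, ⟨e, fun n m => ?_⟩, hρ⟩
  rw [he, ← hQP c d hj]
  exact hi n m

/-- indices of compositions -/
theorem comp3_index (i j v : ℕ) : ∃ k, ∀ (c : Cantor) (ρ ρ' r : ℕ → ℕ), CompVia i c ρ →
    CompVia j c ρ' → (∀ n, r n ∈ (ofNat Code v).eval n) →
      CompVia k c (fun n => ρ' (r (ρ n))) := by
  have hU : URE (fun c (p : ℕ) => ∃ q : ℕ × ℕ, Nat.pair p.unpair.1 q.1 ∈ W i c ∧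
      (q.2 ∈ (ofNat Code v).eval q.1 ∧ Nat.pair q.2 p.unpair.2 ∈ W j c)) := by
    refine URE.exists (P := fun c (p : ℕ × (ℕ × ℕ)) => Nat.pair p.1.unpair.1 p.2.1 ∈ W i c ∧
      (p.2.2 ∈ (ofNat Code v).eval p.2.1 ∧ Nat.pair p.2.2 p.1.unpair.2 ∈ W j c)) ?_
    have u1 : Computable (fun p : ℕ × (ℕ × ℕ) => p.1.unpair.1) :=
      Computable.fst.comp (Computable.unpair.comp Computable.fst)
    have u2 : Computable (fun p : ℕ × (ℕ × ℕ) => p.1.unpair.2) :=
      Computable.snd.comp (Computable.unpair.comp Computable.fst)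
    have q1 : Computable (fun p : ℕ × (ℕ × ℕ) => p.2.1) := Computable.fst.comp Computable.snd
    have q2 : Computable (fun p : ℕ × (ℕ × ℕ) => p.2.2) := Computable.snd.comp Computable.snd
    refine URE.and (URE.W_comp (Computable.const i) (Primrec₂.natPair.to_comp.comp u1 q1)) ?_
    refine URE.and (URE.const (RE.mem_eval_comp (Computable.const v) q1 q2)) ?_
    exact URE.W_comp (Computable.const j) (Primrec₂.natPair.to_comp.comp q2 u2)
  obtain ⟨k, hk⟩ := URE.code hU
  refine ⟨k, fun c ρ ρ' r h1 h2 hr n m => ?_⟩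
  rw [hk]
  simp only [Nat.unpair_pair]
  constructor
  · intro h
    exact ⟨(ρ n, r (ρ n)), (h1 n _).1 rfl, hr _, (h2 _ _).1 h⟩
  · rintro ⟨⟨a, b⟩, ha, hb, hm⟩
    dsimp only at ha hb hm
    have ha' : ρ n = a := (h1 n a).2 ha
    have hb' : r a = b := Part.mem_unique (hr a) hb
    have hm' : ρ' b = m := (h2 b m).2 hm
    rw [ha', hb', hm']

/-- if `jump a ≤_m jump b` then `a ≤_T b`, uniformly. -/
theorem tred_of_mred_jump {a b : Cantor} (h : Mred (jump a) (jump b)) : Tred a b := by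
  obtain ⟨i, hi⟩ := h
  obtain ⟨s, hs, hsx⟩ := bit_to_jump
  have hU : URE (fun y (p : ℕ × Bool) => ∃ m : ℕ, m ∈ (ofNat Code i).eval (s (gcode p)) ∧
      m ∈ W m y) := by
    refine URE.exists (P := fun y (q : (ℕ × Bool) × ℕ) =>
      q.2 ∈ (ofNat Code i).eval (s (gcode q.1)) ∧ q.2 ∈ W q.2 y) ?_
    refine URE.and (URE.const (RE.mem_eval_comp (Computable.const i)
      ((hs.comp gcode_computable).comp Computable.fst) Computable.snd)) ?_
    exact URE.W_comp Computable.snd Computable.snd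
  obtain ⟨k, hk⟩ := URE.graph hU
  refine ⟨k, hk a b fun n c => ?_⟩
  obtain ⟨m, hm, hxm⟩ := hi (s (gcode (n, c)))
  rw [← hsx a n c, ← jump_eq_true, hxm]
  constructor
  · intro h
    exact ⟨m, hm, (jump_eq_true _ _).1 h⟩
  · rintro ⟨m', hm', h⟩
    rw [Part.mem_unique hm hm']
    exact (jump_eq_true _ _).2 h

/-- Part I of the many-one conjecture gives `x ≤_T f x ⊕ c` on a cone. -/
theorem increasing_param {𝓕 : Set (Cantor → Cantor)} (hj : ∀ f ∈ 𝓕, (fun x => jump (f x)) ∈ 𝓕)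
    (H : MCmI 𝓕) {f : Cantor → Cantor} (hf : f ∈ 𝓕) (hT : TInv f) (hn : ¬ ConstOnCone f) :
    ∃ c, ∀ x, Tred c x → Tred x (join (f x) c) := by
  have h := H _ (hj f hf) (tinv_jumpTM hT) (by
    rintro ⟨c, hc⟩
    exact hn ⟨c, fun x hx => ⟨tred_of_mred_jump (hc x hx).1, tred_of_mred_jump (hc x hx).2⟩⟩)
  rcases h with ⟨c, hc⟩ | ⟨c, hc⟩
  · exact ⟨c, fun x hx => Tred.of_MredRel_jump (hc x hx)⟩
  · exact ⟨c, fun x hx => Tred.of_MredRel_jump_co (hc x hx).co⟩

/-- The set of the points at which two reals are related by a given parametrized reduction. -/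
def redSet (c : Cantor) (F G : Cantor → Cantor) (i : ℕ) : Set Cantor :=
  {x | ∃ ρ, CompVia i c ρ ∧ ∀ n, F x n = G x (ρ n)}

theorem redSet_measurable {m : MeasurableSpace Cantor} (c : Cantor) {F G : Cantor → Cantor}
    (hF : F ∈ Fn m) (hG : G ∈ Fn m) (i : ℕ) : MeasurableSet[m] (redSet c F G i) := by
  by_cases h : ∃ ρ, CompVia i c ρ
  · obtain ⟨ρ, hρ⟩ := h
    have : redSet c F G i = ⋂ n, {x | F x n = G x (ρ n)} := by
      ext x
      simp only [redSet, Set.mem_ofPred_eq, Set.mem_iInter]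
      constructor
      · rintro ⟨ρ', h1, h2⟩
        rw [hρ.unique h1]
        exact h2
      · intro h
        exact ⟨ρ, hρ, h⟩
    rw [this]
    exact MeasurableSet.iInter fun n => Fn.eqbit hF hG n _
  · have : redSet c F G i = ∅ := by
      ext x
      simp only [redSet, Set.mem_ofPred_eq, Set.mem_empty_iff_false, iff_false]
      rintro ⟨ρ, h1, -⟩
      exact h ⟨ρ, h1⟩
    rw [this]
    exact MeasurableSet.empty

/-- Steel's many-one conjecture gives Steel's conjecture up to a parameter. -/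
theorem steel_param {m : MeasurableSpace Cantor} (hm : DetAlgebra m) (H : SCm (Fn m))
    {f : Cantor → Cantor} (hf : f ∈ Fn m) (hT : TInv f) (a : Cantor) :
    ∃ c, Tred a c ∧ ∃ g ∈ Fn m, UTInv g ∧ ∃ d, Tred c d ∧
      ∀ x, Tred d x → Teq (join (f x) c) (g x) := by
  have hF : (fun x => jump (f x)) ∈ Fn m := Fn.jump hf
  obtain ⟨G, hG, ⟨u, hu⟩, ⟨c1, h1⟩, ⟨c2, h2⟩⟩ := H _ hF (tinv_jumpTM hT)
  set F : Cantor → Cantor := fun x => jump (f x) with hFdef
  set c : Cantor := join a (join c1 c2) with hc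
  have hc1 : Tred c1 c := (Tred.left c1 c2).trans (Tred.right a _)
  have hc2 : Tred c2 c := (Tred.right c1 c2).trans (Tred.right a _)
  let A : ℕ → Set Cantor := fun k => redSet c F G k.unpair.1 ∩ redSet c G F k.unpair.2
  have hA : ∀ k, MeasurableSet[m] (A k) := fun k =>
    (redSet_measurable c hF hG _).inter (redSet_measurable c hG hF _)
  have hcov : ∀ x, Tred c x → ∃ k, x ∈ A k := by
    intro x hx
    obtain ⟨ρ, ⟨i, hi⟩, hρ⟩ := (h1 x (hc1.trans hx)).mono hc1
    obtain ⟨ρ', ⟨j, hj⟩, hρ'⟩ := (h2 x (hc2.trans hx)).mono hc2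
    refine ⟨Nat.pair i j, ?_⟩
    simp only [A, Nat.unpair_pair]
    exact ⟨⟨ρ, hi, hρ⟩, ⟨ρ', hj, hρ'⟩⟩
  obtain ⟨k, s, T, hTc, hTA, hcs, ⟨i0, hi0⟩, ⟨j0, hj0⟩⟩ := pointed hm A hA c hcov
  refine ⟨c, Tred.left _ _, fun w => join (f (T w)) c,
    Fn.join (Fn.comp hm hf hTc) (Fn.const c), ?_, s, hcs, ?_⟩
  · -- uniformity
    -- step 1: from an index for `x ≤ y` to an index for `T x ≤ T y`
    have step1 : ∀ i, ∃ i', ∀ x y, TredVia i x y → TredVia i' (T x) (T y) := by
      intro i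
      obtain ⟨l, hl⟩ := TredVia.left_index
      obtain ⟨r, hr⟩ := TredVia.right_index
      obtain ⟨a1, ha1⟩ := TredVia.trans_index i r
      obtain ⟨a2, ha2⟩ := TredVia.join_index l a1
      obtain ⟨a3, ha3⟩ := TredVia.trans_index i0 a2
      obtain ⟨a4, ha4⟩ := TredVia.trans_index a3 j0
      refine ⟨a4, fun x y hxy => ?_⟩
      refine ha4 _ _ _ (ha3 _ _ _ (hi0 x) (ha2 _ _ _ (hl s y) ?_)) (hj0 y)
      exact ha1 _ _ _ hxy (hr s y)
    -- step 2: from an index for `G x ≤_m G y` to an index for `f x ⊕ c ≤ f y ⊕ c`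
    have step2 : ∀ v, ∃ v', ∀ x y, MredVia v (G (T x)) (G (T y)) →
        TredVia v' (join (f (T x)) c) (join (f (T y)) c) := by
      intro v
      obtain ⟨b1, hb1⟩ := comp3_index k.unpair.1 k.unpair.2 v
      obtain ⟨b2, hb2⟩ := of_jump_index b1
      obtain ⟨r, hr⟩ := TredVia.right_index
      obtain ⟨b3, hb3⟩ := TredVia.join_index b2 r
      refine ⟨b3, fun x y hxy => hb3 _ _ _ ?_ (hr _ _)⟩
      obtain ⟨⟨ρ, hρi, hρ⟩, -⟩ := hTA x
      obtain ⟨-, ⟨ρ', hρ'j, hρ'⟩⟩ := hTA y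
      choose r' hr' hr'' using hxy
      refine hb2 c _ _ _ (hb1 c ρ ρ' r' hρi hρ'j hr') fun n => ?_
      have e1 := hρ n
      have e2 := hr'' (ρ n)
      have e3 := hρ' (r' (ρ n))
      simp only [hFdef] at e1 e3
      rw [e1, e2, e3]
    have key : ∀ ij : ℕ × ℕ, ∃ v : ℕ × ℕ, ∀ x y, TredVia ij.1 x y → TredVia ij.2 y x →
        TredVia v.1 (join (f (T x)) c) (join (f (T y)) c) ∧
        TredVia v.2 (join (f (T y)) c) (join (f (T x)) c) := by
      rintro ⟨i, j⟩
      obtain ⟨i', hi'⟩ := step1 i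
      obtain ⟨j', hj'⟩ := step1 j
      obtain ⟨v1, hv1⟩ := step2 (u (i', j')).1
      obtain ⟨v2, hv2⟩ := step2 (u (i', j')).2
      refine ⟨(v1, v2), fun x y hxy hyx => ?_⟩
      have := hu (T x) (T y) i' j' (hi' x y hxy) (hj' y x hyx)
      exact ⟨hv1 x y this.1, hv2 y x this.2⟩
    choose v hv using key
    exact ⟨v, fun x y i j hxy hyx => hv (i, j) x y hxy hyx⟩
  · -- equivalence on the cone above `s`
    intro x hx
    have h3 : Tred (T x) x := (Tred.trans ⟨i0, hi0 x⟩ (Tred.join hx (Tred.refl x)))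
    have h4 : Tred x (T x) := (Tred.right s x).trans ⟨j0, hj0 x⟩
    have h5 : Teq (f x) (f (T x)) := hT _ _ ⟨h4, h3⟩
    have hjoin : ∀ {p q : Cantor}, Tred p q → Tred (join p c) (join q c) := by
      intro p q hpq
      exact Tred.join (hpq.trans (Tred.left q c)) (Tred.right q c)
    exact ⟨hjoin h5.1, hjoin h5.2⟩

/-- Under the many-one conjectures Part I and Steel's conjecture hold up to a parameter. -/
theorem param {m : MeasurableSpace Cantor} (hm : DetAlgebra m) (H1 : MCmI (Fn m))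
    (H3 : SCm (Fn m)) {f : Cantor → Cantor} (hf : f ∈ Fn m) (hT : TInv f)
    (hn : ¬ ConstOnCone f) :
    ∃ c, ∃ g ∈ Fn m, UTInv g ∧ ∃ d, Tred c d ∧
      ∀ x, Tred d x → Tred x (join (f x) c) ∧ Teq (join (f x) c) (g x) := by
  obtain ⟨a, ha⟩ := increasing_param (fun f hf => Fn.jump hf) H1 hf hT hn
  obtain ⟨c, hac, g, hg, hgU, d, hcd, h⟩ := steel_param hm H3 hf hT a
  refine ⟨c, g, hg, hgU, d, hcd, fun x hx => ⟨?_, h x hx⟩⟩
  have h1 : Tred a x := hac.trans (hcd.trans hx)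
  exact (ha x h1).trans (Tred.join (Tred.left _ _) (hac.trans (Tred.right _ _)))

/-- Under the many-one conjectures, `MC ∧ SC` holds iff every Turing invariant function is
constant on a cone or measure preserving. -/
theorem reduction {m : MeasurableSpace Cantor} (hm : DetAlgebra m) (H1 : MCmI (Fn m))
    (H2 : MCmII (Fn m)) (H3 : SCm (Fn m)) :
    (MCI (Fn m) ∧ MCII (Fn m) ∧ SC (Fn m)) ↔
      ∀ f ∈ Fn m, TInv f → ConstOnCone f ∨ MeasPres f := by
  constructor
  · rintro ⟨hI, -, -⟩ f hf hT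
    rcases hI f hf hT with h | ⟨c, hc⟩
    · exact Or.inl h
    · right
      intro a
      refine ⟨join a c, fun x hx => ?_⟩
      exact ((Tred.left a c).trans hx).trans (hc x ((Tred.right a c).trans hx))
  · intro H
    have hII : MCII (Fn m) := MCII_of_MCmII (Fn m) (fun f hf => Fn.jump hf)
      (fun f hf => Fn.co hf) H2
    have key : ∀ f ∈ Fn m, TInv f → ¬ ConstOnCone f → ∃ g ∈ Fn m, UTInv g ∧ ∃ d,
        ∀ x, Tred d x → Tred x (f x) ∧ Teq (f x) (g x) := by
      intro f hf hT hn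
      have hM : MeasPres f := (H f hf hT).resolve_left hn
      obtain ⟨c, g, hg, hgU, d, hcd, h⟩ := param hm H1 H3 hf hT hn
      obtain ⟨e, he⟩ := hM c
      refine ⟨g, hg, hgU, join d e, fun x hx => ?_⟩
      have h1 := h x ((Tred.left d e).trans hx)
      have h2 : Tred c (f x) := he x ((Tred.right d e).trans hx)
      have h3 : Tred (join (f x) c) (f x) := Tred.join (Tred.refl _) h2
      exact ⟨h1.1.trans h3, (Tred.left _ _).trans h1.2.1, h1.2.2.trans h3⟩
    refine ⟨fun f hf hT => ?_, hII, fun f hf hT => ?_⟩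
    · by_cases hn : ConstOnCone f
      · exact Or.inl hn
      · obtain ⟨g, hg, hgU, d, h⟩ := key f hf hT hn
        exact Or.inr ⟨d, fun x hx => (h x hx).1⟩
    · by_cases hn : ConstOnCone f
      · obtain ⟨c, hc⟩ := hn
        refine ⟨fun _ => f c, Fn.const _, ?_, c, hc⟩
        obtain ⟨i, hi⟩ := TredVia.refl_index
        exact ⟨fun _ => (i, i), fun x y _ _ _ _ => ⟨hi _, hi _⟩⟩
      · obtain ⟨g, hg, hgU, d, h⟩ := key f hf hT hn
        exact ⟨g, hg, hgU, d, fun x hx => (h x hx).2⟩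

end Pool.Agent.MCM
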