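import Pool.Agent.MCM.Defs

set_option autoImplicit false

/-!
# Martin's conjecture, Steel's conjecture and their many-one analogues for a class `𝓕`
-/

namespace Pool.Agent.MCM

/-- `MC_m` (I) for the functions in `𝓕`: a `(≡_T, ≡_m)`-invariant `f` whose values are not all
`≡_m` on some cone satisfies `f ≥_m^∇ j` or `f ≥_m^∇ co j` (`j` the jump). -/
def MCmI (𝓕 : Set (Cantor → Cantor)) : Prop :=
  ∀ f ∈ 𝓕, TMInv f → (¬ ∃ c, ∀ x, Tred c x → Meq (f x) (f c)) →
    LeNabla jump f ∨ LeNabla (fun x => co (jump x)) f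

/-- `MC_m` (II) for the functions in `𝓕`. -/
def MCmII (𝓕 : Set (Cantor → Cantor)) : Prop :=
  (∀ f ∈ 𝓕, ∀ g ∈ 𝓕, TMInv f → TMInv g → LeNabla g f ∨ LeNabla f (fun x => co (g x))) ∧
  ∀ F : ℕ → Cantor → Cantor, (∀ n, F n ∈ 𝓕 ∧ TMInv (F n)) → ∃ i j, i < j ∧ LeNabla (F i) (F j)

/-- The Turing invariant functions in `𝓕` with `f x ≥_T x` on a cone. -/
def Increasing (𝓕 : Set (Cantor → Cantor)) : Type := {f : Cantor → Cantor // f ∈ 𝓕 ∧ Incr f}

/-- The strict part of the relation that `f x ≤_T g x` on a cone. -/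
def Below (𝓕 : Set (Cantor → Cantor)) (f g : Increasing 𝓕) : Prop :=
  LeCone f.1 g.1 ∧ ¬ LeCone g.1 f.1

/-- Martin's conjecture (II) for the functions in `𝓕`: the Turing invariant functions with
`f x ≥_T x` on a cone are prewellordered by: `f x ≤_T g x` on a cone (total, transitive,
well-founded), and if `f` has rank `α` then `x ↦ (f x)'` has rank `α + 1`. -/
def MCII (𝓕 : Set (Cantor → Cantor)) : Prop :=
  (∀ f g : Increasing 𝓕, LeCone f.1 g.1 ∨ LeCone g.1 f.1) ∧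
  (∀ f g h : Increasing 𝓕, LeCone f.1 g.1 → LeCone g.1 h.1 → LeCone f.1 h.1) ∧
  ∃ wf : WellFounded (Below 𝓕), ∀ f : Increasing 𝓕,
    ∃ hf : (fun x => jump (f.1 x)) ∈ 𝓕 ∧ Incr (fun x => jump (f.1 x)),
      (wf.apply ⟨fun x => jump (f.1 x), hf⟩).rank = (wf.apply f).rank + 1

end Pool.Agent.MCM
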