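import Pool.Agent.MCM.Statements

set_option autoImplicit false

namespace Pool.Agent.MCM

open MeasureTheory

/-- `g` is uniformly `(≡_T, ≡_m)`-invariant. -/
def UTMInv (g : Cantor → Cantor) : Prop :=
  ∃ u : ℕ × ℕ → ℕ × ℕ, ∀ x y i j, TredVia i x y → TredVia j y x →
    MredVia (u (i, j)).1 (g x) (g y) ∧ MredVia (u (i, j)).2 (g y) (g x)

/-- `g` is uniformly Turing invariant. -/
def UTInv (g : Cantor → Cantor) : Prop :=
  ∃ u : ℕ × ℕ → ℕ × ℕ, ∀ x y i j, TredVia i x y → TredVia j y x →
    TredVia (u (i, j)).1 (g x) (g y) ∧ TredVia (u (i, j)).2 (g y) (g x)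

/-- `f` is constant (up to `≡_T`) on a cone. -/
def ConstOnCone (f : Cantor → Cantor) : Prop := ∃ c, ∀ x, Tred c x → Teq (f x) (f c)

/-- `SC_m` for the functions in `𝓕`. -/
def SCm (𝓕 : Set (Cantor → Cantor)) : Prop :=
  ∀ f ∈ 𝓕, TMInv f → ∃ g ∈ 𝓕, UTMInv g ∧ LeNabla f g ∧ LeNabla g f

/-- Martin's conjecture (I) for the functions in `𝓕`. -/
def MCI (𝓕 : Set (Cantor → Cantor)) : Prop :=
  ∀ f ∈ 𝓕, TInv f → ConstOnCone f ∨ LeCone id f

/-- Steel's conjecture for the functions in `𝓕`. -/
def SC (𝓕 : Set (Cantor → Cantor)) : Prop :=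
  ∀ f ∈ 𝓕, TInv f → ∃ g ∈ 𝓕, UTInv g ∧ ∃ c, ∀ x, Tred c x → Teq (f x) (g x)

/-- The game with payoff set `A` (for player I) in which the players alternately play bits is
determined; `join a b` is the result of the play if I plays `a` and II plays `b`. -/
def Determined (A : Set Cantor) : Prop :=
  (∃ σ : List Bool → Bool, ∀ b : Cantor, join (fun n => σ (pre b n)) b ∈ A) ∨
  (∃ τ : List Bool → Bool, ∀ a : Cantor, join a (fun n => τ (pre a (n + 1))) ∉ A)

/-- A determined `σ`-algebra on Cantor space: it contains the sets `{x | x n = true}` (hence all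
Borel sets), it is closed under preimages by continuous functions, and all its members are
determined. -/
structure DetAlgebra (m : MeasurableSpace Cantor) : Prop where
  basic : ∀ n, MeasurableSet[m] {x : Cantor | x n = true}
  preim : ∀ φ : Cantor → Cantor, Continuous φ → ∀ A, MeasurableSet[m] A → MeasurableSet[m] (φ ⁻¹' A)
  det : ∀ A, MeasurableSet[m] A → Determined A

/-- The functions from Cantor space to itself that are measurable with respect to `m`. -/
def Fn (m : MeasurableSpace Cantor) : Set (Cantor → Cantor) :=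
  {f | ∀ n, MeasurableSet[m] {x | f x n = true}}

end Pool.Agent.MCM
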