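import Pool.Agent.MCM.RE

set_option autoImplicit false

namespace Pool.Agent.MCM

open Nat.Partrec (Code)
open Encodable Denumerable

@[simp] theorem pre_length (x : Cantor) (k : ℕ) : (pre x k).length = k := by simp [pre]

theorem pre_take (x : Cantor) (k j : ℕ) : (pre x k).take j = pre x (min j k) := by
  unfold pre
  rw [← List.map_take, List.take_range]

theorem pre_get (x : Cantor) {k i : ℕ} (h : i < k) : (pre x k)[i]? = some (x i) := by
  simp [pre, h]

theorem pre_get_none (x : Cantor) {k i : ℕ} (h : k ≤ i) : (pre x k)[i]? = none := by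
  simp [pre, h]

/-- A family of predicates that is uniformly enumerable from the oracle. -/
def URE {α : Type} [Primcodable α] (P : Cantor → α → Prop) : Prop :=
  ∃ R : List Bool × α → Prop, RE R ∧ ∀ x a, P x a ↔ ∃ k, R (pre x k, a)

section
variable {α β γ : Type} [Primcodable α] [Primcodable β] [Primcodable γ]

theorem URE.of_iff {P Q : Cantor → α → Prop} (h : URE P) (H : ∀ x a, Q x a ↔ P x a) : URE Q := by
  obtain ⟨R, hR, hP⟩ := h
  exact ⟨R, hR, fun x a => (H x a).trans (hP x a)⟩

theorem URE.const {P : α → Prop} (h : RE P) : URE (fun _ a => P a) :=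
  ⟨fun p => P p.2, h.comp Computable.snd, fun x a => by simp⟩

theorem URE.comp {P : Cantor → β → Prop} (h : URE P) {f : α → β} (hf : Computable f) :
    URE (fun x a => P x (f a)) := by
  obtain ⟨R, hR, hP⟩ := h
  exact ⟨fun p => R (p.1, f p.2), hR.comp (Computable.pair Computable.fst
    (hf.comp Computable.snd)), fun x a => hP x _⟩

theorem URE.bit : URE (fun x (p : ℕ × Bool) => x p.1 = p.2) := by
  refine ⟨fun p => (decide (p.1[p.2.1]? = some p.2.2)) = true, RE.of_computable ?_, ?_⟩
  · have h1 : Primrec (fun p : List Bool × (ℕ × Bool) => p.1[p.2.1]?) :=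
      Primrec.list_getElem?.comp Primrec.fst (Primrec.fst.comp Primrec.snd)
    have h2 : Primrec (fun p : List Bool × (ℕ × Bool) => some p.2.2) :=
      Primrec.option_some.comp (Primrec.snd.comp Primrec.snd)
    exact (Primrec.eq.decide.comp h1 h2).to_comp
  · rintro x ⟨n, b⟩
    simp only [decide_eq_true_eq]
    constructor
    · intro h
      exact ⟨n + 1, by rw [pre_get x (Nat.lt_succ_self n), h]⟩
    · rintro ⟨k, hk⟩
      by_cases hnk : n < k
      · rw [pre_get x hnk] at hk
        exact Option.some_injective _ hk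
      · rw [pre_get_none x (by omega)] at hk
        simp at hk

theorem take_computable {γ : Type} [Primcodable γ] {f : γ → List Bool} {g : γ → ℕ}
    (hf : Computable f) (hg : Computable g) : Computable fun a => (f a).take (g a) :=
  Primrec.list_take.to_comp.comp hg hf

theorem URE.and {P Q : Cantor → α → Prop} (h1 : URE P) (h2 : URE Q) :
    URE (fun x a => P x a ∧ Q x a) := by
  obtain ⟨R1, hR1, hP⟩ := h1
  obtain ⟨R2, hR2, hQ⟩ := h2
  refine ⟨fun p => ∃ j : ℕ × ℕ, R1 (p.1.take j.1, p.2) ∧ R2 (p.1.take j.2, p.2), ?_, ?_⟩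
  · refine RE.exists (P := fun q : (List Bool × α) × (ℕ × ℕ) =>
      R1 (q.1.1.take q.2.1, q.1.2) ∧ R2 (q.1.1.take q.2.2, q.1.2)) ?_
    refine RE.and (hR1.comp ?_) (hR2.comp ?_)
    · exact Computable.pair (take_computable (Computable.fst.comp Computable.fst)
        (Computable.fst.comp Computable.snd)) (Computable.snd.comp Computable.fst)
    · exact Computable.pair (take_computable (Computable.fst.comp Computable.fst)
        (Computable.snd.comp Computable.snd)) (Computable.snd.comp Computable.fst)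
  · intro x a
    constructor
    · rintro ⟨h1, h2⟩
      obtain ⟨k1, hk1⟩ := (hP x a).1 h1
      obtain ⟨k2, hk2⟩ := (hQ x a).1 h2
      refine ⟨max k1 k2, (k1, k2), ?_, ?_⟩
      · rw [pre_take, min_eq_left (le_max_left _ _)]; exact hk1
      · rw [pre_take, min_eq_left (le_max_right _ _)]; exact hk2
    · rintro ⟨k, j, h1, h2⟩
      rw [pre_take] at h1 h2
      exact ⟨(hP x a).2 ⟨_, h1⟩, (hQ x a).2 ⟨_, h2⟩⟩

theorem URE.or {P Q : Cantor → α → Prop} (h1 : URE P) (h2 : URE Q) :
    URE (fun x a => P x a ∨ Q x a) := by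
  obtain ⟨R1, hR1, hP⟩ := h1
  obtain ⟨R2, hR2, hQ⟩ := h2
  refine ⟨fun p => R1 p ∨ R2 p, RE.or hR1 hR2, fun x a => ?_⟩
  dsimp only
  rw [hP, hQ]
  exact exists_or.symm

theorem URE.exists {P : Cantor → α × β → Prop} (h : URE P) :
    URE (fun x a => ∃ b, P x (a, b)) := by
  obtain ⟨R, hR, hP⟩ := h
  refine ⟨fun p => ∃ b, R (p.1, (p.2, b)), ?_, ?_⟩
  · refine RE.exists (P := fun q : (List Bool × α) × β => R (q.1.1, (q.1.2, q.2))) (hR.comp ?_)
    exact Computable.pair (Computable.fst.comp Computable.fst)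
      (Computable.pair (Computable.snd.comp Computable.fst) Computable.snd)
  · intro x a
    simp only [hP]
    exact exists_comm

theorem URE.ball {P : Cantor → α × ℕ → Prop} (h : URE P) :
    URE (fun x (p : α × ℕ) => ∀ i < p.2, P x (p.1, i)) := by
  obtain ⟨R, hR, hP⟩ := h
  refine ⟨fun p => ∀ i < p.2.2, ∃ j : ℕ, R (p.1.take j, (p.2.1, i)), ?_, ?_⟩
  · refine RE.ball_comp (P := fun q : (List Bool × (α × ℕ)) × ℕ =>
      ∃ j : ℕ, R (q.1.1.take j, (q.1.2.1, q.2))) (f := fun p => p.2.2) ?_
      (Computable.snd.comp Computable.snd)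
    refine RE.exists (P := fun q : ((List Bool × (α × ℕ)) × ℕ) × ℕ =>
      R (q.1.1.1.take q.2, (q.1.1.2.1, q.1.2))) (hR.comp ?_)
    refine Computable.pair (take_computable
      (Computable.fst.comp (Computable.fst.comp Computable.fst)) Computable.snd) ?_
    exact Computable.pair (Computable.fst.comp (Computable.snd.comp
      (Computable.fst.comp Computable.fst))) (Computable.snd.comp Computable.fst)
  · rintro x ⟨a, n⟩
    constructor
    · intro h
      have h' : ∀ i < n, ∃ k, R (pre x k, (a, i)) := fun i hi => (hP x _).1 (h i hi)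
      choose! g hg using h'
      refine ⟨(Finset.range n).sup g, fun i hi => ⟨g i, ?_⟩⟩
      have : g i ≤ (Finset.range n).sup g := Finset.le_sup (Finset.mem_range.2 hi)
      rw [pre_take, min_eq_left this]
      exact hg i hi
    · rintro ⟨k, hk⟩ i hi
      obtain ⟨j, hj⟩ := hk i hi
      rw [pre_take] at hj
      exact (hP x _).2 ⟨_, hj⟩

theorem URE.ball_comp {P : Cantor → α × ℕ → Prop} (h : URE P) {f : α → ℕ} (hf : Computable f) :
    URE (fun x a => ∀ i < f a, P x (a, i)) :=
  (URE.ball h).comp (Computable.pair Computable.id hf)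

theorem URE.W : URE (fun x (p : ℕ × ℕ) => p.2 ∈ W p.1 x) := by
  refine ⟨fun p => ((ofNat Code p.2.1).eval (Nat.pair (encode p.1) p.2.2)).Dom, ?_, ?_⟩
  · refine RE.halt_comp (Computable.fst.comp Computable.snd) ?_
    exact Primrec₂.natPair.to_comp.comp (Computable.encode.comp Computable.fst)
      (Computable.snd.comp Computable.snd)
  · rintro x ⟨e, n⟩
    rfl

theorem URE.W_comp {f g : α → ℕ} (hf : Computable f) (hg : Computable g) :
    URE (fun x a => g a ∈ Pool.Agent.MCM.W (f a) x) :=
  URE.W.comp (Computable.pair hf hg)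

/-- s-m-n theorem for enumeration from an oracle. -/
theorem URE.smn {P : Cantor → ℕ × ℕ → Prop} (h : URE P) :
    ∃ s : ℕ → ℕ, Computable s ∧ ∀ a n x, n ∈ Pool.Agent.MCM.W (s a) x ↔ P x (a, n) := by
  obtain ⟨R, hR, hP⟩ := h
  -- R' (a, m) : decode the first component of m as a list
  obtain ⟨s, hs, hsP⟩ := RE.smn (P := fun p : ℕ × ℕ => ∃ τ : List Bool,
    decide (encode τ = p.2.unpair.1) = true ∧ R (τ, (p.1, p.2.unpair.2))) (by
      refine RE.exists (P := fun q : (ℕ × ℕ) × List Bool =>
        decide (encode q.2 = q.1.2.unpair.1) = true ∧ R (q.2, (q.1.1, q.1.2.unpair.2))) ?_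
      refine RE.and (RE.of_computable ?_) (hR.comp ?_)
      · have h1 : Primrec (fun q : (ℕ × ℕ) × List Bool => encode q.2) :=
          Primrec.encode.comp Primrec.snd
        have h2 : Primrec (fun q : (ℕ × ℕ) × List Bool => q.1.2.unpair.1) :=
          Primrec.fst.comp (Primrec.unpair.comp (Primrec.snd.comp Primrec.fst))
        exact (Primrec.eq.decide.comp h1 h2).to_comp
      · refine Computable.pair Computable.snd ?_
        exact Computable.pair (Computable.fst.comp Computable.fst) (Computable.snd.comp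
          (Computable.unpair.comp (Computable.snd.comp Computable.fst))))
  refine ⟨s, hs, fun a n x => ?_⟩
  rw [hP]
  constructor
  · rintro ⟨k, hk⟩
    obtain ⟨τ, h1, h2⟩ := (hsP a _).1 hk
    simp only [Nat.unpair_pair, decide_eq_true_eq] at h1 h2
    have h3 : τ = pre x k := encode_injective h1
    subst h3
    exact ⟨k, h2⟩
  · rintro ⟨k, hk⟩
    refine ⟨k, (hsP a _).2 ⟨pre x k, ?_, ?_⟩⟩
    · simp
    · simpa using hk

theorem URE.code {P : Cantor → ℕ → Prop} (h : URE P) :
    ∃ e : ℕ, ∀ n x, n ∈ Pool.Agent.MCM.W e x ↔ P x n := by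
  obtain ⟨s, -, hs⟩ := URE.smn (P := fun x (p : ℕ × ℕ) => P x p.2) (h.comp Computable.snd)
  exact ⟨s 0, fun n x => hs 0 n x⟩

/-- Substitution of a Turing reduction in the oracle. -/
theorem URE.subst (j : ℕ) {P : Cantor → α → Prop} (h : URE P) :
    ∃ Q : Cantor → α → Prop, URE Q ∧ ∀ y z, TredVia j y z → ∀ a, P y a ↔ Q z a := by
  obtain ⟨R, hR, hP⟩ := h
  refine ⟨fun z a => ∃ σ : List Bool,
    (∀ m < σ.length, Nat.pair m (cond (σ.getD m false) 1 0) ∈ Pool.Agent.MCM.W j z) ∧
      R (σ, a), ?_, ?_⟩
  · refine URE.exists (P := fun z (p : α × List Bool) =>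
      (∀ m < p.2.length, Nat.pair m (cond (p.2.getD m false) 1 0) ∈ Pool.Agent.MCM.W j z) ∧
        R (p.2, p.1)) ?_
    refine URE.and ?_ (URE.const (hR.comp (Computable.pair Computable.snd Computable.fst)))
    refine URE.ball_comp (P := fun z (q : (α × List Bool) × ℕ) =>
      Nat.pair q.2 (cond (q.1.2.getD q.2 false) 1 0) ∈ Pool.Agent.MCM.W j z)
      (f := fun p => p.2.length) ?_ (Primrec.list_length.to_comp.comp Computable.snd)
    refine URE.W_comp (Computable.const j) ?_
    refine Primrec₂.natPair.to_comp.comp Computable.snd ?_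
    refine Computable.cond ?_ (Computable.const 1) (Computable.const 0)
    exact (Primrec.list_getD false).to_comp.comp (Computable.snd.comp Computable.fst)
      Computable.snd
  · intro y z hyz a
    have key : ∀ σ : List Bool, (∀ m < σ.length,
        Nat.pair m (cond (σ.getD m false) 1 0) ∈ Pool.Agent.MCM.W j z) ↔
        σ = pre y σ.length := by
      intro σ
      constructor
      · intro h
        apply List.ext_getElem (by simp)
        intro m h1 h2
        have h3 := (hyz m (σ.getD m false)).2 (h m h1)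
        rw [List.getD_eq_getElem _ _ h1] at h3
        simp [pre, h3]
      · intro h m hm
        have h3 : σ.getD m false = y m := by
          rw [h]; simp [pre, hm]
        rw [h3]
        exact (hyz m (y m)).1 rfl
    rw [hP]
    constructor
    · rintro ⟨k, hk⟩
      exact ⟨pre y k, (key _).2 (by simp), hk⟩
    · rintro ⟨σ, h1, h2⟩
      refine ⟨σ.length, ?_⟩
      rw [← (key σ).1 h1]
      exact h2

end

end Pool.Agent.MCM
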